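import Pool.Agent.H23.GLA.A1
import Pool.Agent.H23.LC.Targets

/-!
# (AK) the mean value of the Epstein zeta function, dependence on `κ`
-/

set_option autoImplicit false

open NumberField NumberField.InfinitePlace NumberField.Units
  NumberField.Units.dirichletUnitTheorem MeasureTheory Set Filter Complex Topology
open scoped nonZeroDivisors ENNReal

namespace Pool.Agent.H23.GLB

open Pool.Agent.H25.HK Pool.Agent.H23.LB Pool.Agent.H23.LC Pool.Agent.H23.GLA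

lemma rpow_tele (κ : ℝ) (hκ : 0 < κ) (m : ℕ) (hm : 1 ≤ m) :
    κ * ((m + 1 : ℕ) : ℝ) ^ (-(1 + κ)) ≤ (m : ℝ) ^ (-κ) - ((m + 1 : ℕ) : ℝ) ^ (-κ) := by
  have h1 : (0 : ℝ) < ((m + 1 : ℕ) : ℝ) := by positivity
  have h2 : (0 : ℝ) < (m : ℝ) := by exact_mod_cast hm
  set M : ℝ := ((m + 1 : ℕ) : ℝ) with hM
  have h3 : (m : ℝ) = M * (1 - 1 / M) := by
    rw [mul_sub, mul_one_div_cancel h1.ne', hM]
    push_cast
    ring
  have hM2 : 1 < M := by
    rw [hM]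
    have : (1 : ℝ) ≤ m := by exact_mod_cast hm
    push_cast
    linarith
  have h4 : 0 < 1 - 1 / M := by
    rw [sub_pos, div_lt_one h1]
    exact hM2
  have h5 : 1 + κ / M ≤ (1 - 1 / M) ^ (-κ) := by
    rw [Real.rpow_def_of_pos h4]
    have h6 : Real.log (1 - 1 / M) ≤ -(1 / M) := by
      have := Real.log_le_sub_one_of_pos h4
      linarith
    have h7 : κ / M ≤ Real.log (1 - 1 / M) * -κ := by
      have : κ * (1 / M) ≤ κ * (-Real.log (1 - 1 / M)) :=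
        mul_le_mul_of_nonneg_left (by linarith) hκ.le
      calc κ / M = κ * (1 / M) := by ring
        _ ≤ _ := this
        _ = _ := by ring
    have h8 := Real.add_one_le_exp (κ / M)
    have h9 := Real.exp_le_exp.2 h7
    linarith
  rw [h3, Real.mul_rpow h1.le h4.le]
  have h10 : M ^ (-(1 + κ)) = M ^ (-κ) / M := by
    rw [neg_add, add_comm, Real.rpow_add h1, Real.rpow_neg_one]
    ring
  rw [h10]
  have h11 : 0 < M ^ (-κ) := Real.rpow_pos_of_pos h1 _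
  have h12 : M ^ (-κ) * (1 + κ / M) ≤ M ^ (-κ) * (1 - 1 / M) ^ (-κ) :=
    mul_le_mul_of_nonneg_left h5 h11.le
  have h13 : M ^ (-κ) * (1 + κ / M) = M ^ (-κ) + κ * (M ^ (-κ) / M) := by ring
  linarith

/-- the bound `ζ(1 + κ) ≤ 1 + 1 / κ` -/
lemma zeta_le (κ : ℝ) (hκ : 0 < κ) : ∑' m : ℕ, (m : ℝ) ^ (-(1 + κ)) ≤ 1 + 1 / κ := by
  have hs : Summable (fun m : ℕ => (m : ℝ) ^ (-(1 + κ))) :=
    Real.summable_nat_rpow.2 (by linarith)
  have hkey : ∀ N : ℕ, ∑ m ∈ Finset.range (N + 2), (m : ℝ) ^ (-(1 + κ)) ≤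
      1 + (1 / κ) * (1 - ((N + 1 : ℕ) : ℝ) ^ (-κ)) := by
    intro N
    induction N with
    | zero =>
      rw [Finset.sum_range_succ, Finset.sum_range_succ, Finset.sum_range_zero]
      simp only [Nat.cast_zero, Nat.cast_one, Real.one_rpow, zero_add, Nat.cast_zero]
      rw [Real.zero_rpow (by linarith)]
      simp
    | succ N ih =>
      rw [Finset.sum_range_succ]
      have h1 := rpow_tele κ hκ (N + 1) (by omega)
      have h2 : ((N + 2 : ℕ) : ℝ) ^ (-(1 + κ)) ≤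
          (1 / κ) * (((N + 1 : ℕ) : ℝ) ^ (-κ) - ((N + 2 : ℕ) : ℝ) ^ (-κ)) := by
        rw [one_div, ← div_eq_inv_mul, le_div_iff₀ hκ]
        calc ((N + 2 : ℕ) : ℝ) ^ (-(1 + κ)) * κ = κ * ((N + 1 + 1 : ℕ) : ℝ) ^ (-(1 + κ)) := by
              ring_nf
          _ ≤ _ := h1
      have h3 : ((N + 1 + 1 : ℕ) : ℝ) = ((N + 2 : ℕ) : ℝ) := by push_cast; ring
      rw [h3]
      calc ∑ x ∈ Finset.range (N + 2), (x : ℝ) ^ (-(1 + κ)) + ((N + 2 : ℕ) : ℝ) ^ (-(1 + κ))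
          ≤ (1 + (1 / κ) * (1 - ((N + 1 : ℕ) : ℝ) ^ (-κ))) +
            (1 / κ) * (((N + 1 : ℕ) : ℝ) ^ (-κ) - ((N + 2 : ℕ) : ℝ) ^ (-κ)) := add_le_add ih h2
        _ = _ := by ring
  refine hs.tsum_le_of_sum_range_le fun N => ?_
  have h1 : ∑ m ∈ Finset.range N, (m : ℝ) ^ (-(1 + κ)) ≤
      ∑ m ∈ Finset.range (N + 2), (m : ℝ) ^ (-(1 + κ)) :=
    Finset.sum_le_sum_of_subset_of_nonneg (Finset.range_subset_range.2 (by omega))
      fun _ _ _ => by positivity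
  refine h1.trans ((hkey N).trans ?_)
  have h2 : (0 : ℝ) ≤ ((N + 1 : ℕ) : ℝ) ^ (-κ) := by positivity
  have h3 : (1 / κ) * (1 - ((N + 1 : ℕ) : ℝ) ^ (-κ)) ≤ (1 / κ) * 1 :=
    mul_le_mul_of_nonneg_left (by linarith) (by positivity)
  linarith

/-- the Dedekind zeta function is at most the power of the Riemann zeta function -/
lemma zK_le (K : Type) [Field K] [NumberField K] (n : ℕ) (hn : Module.finrank ℚ K = n) (σ : ℝ)
    (hσ : 1 < σ) : ∑' I : {I : Ideal (𝓞 K) // I ≠ ⊥}, (Ideal.absNorm I.1 : ℝ) ^ (-σ) ≤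
      (∑' m : ℕ, (m : ℝ) ^ (-σ)) ^ n := by
  obtain ⟨h, h0, -, -, h1, h2, -⟩ := Pool.Agent.H76.HK.ep K
  have hs : Summable (fun m : ℕ => (m : ℝ) ^ (-σ)) := Real.summable_nat_rpow.2 (by linarith)
  have hA : (0 : ℝ) ≤ ∑' I : {I : Ideal (𝓞 K) // I ≠ ⊥}, (Ideal.absNorm I.1 : ℝ) ^ (-σ) :=
    tsum_nonneg fun _ => by positivity
  have hB : ‖dedekindZeta K (σ : ℂ)‖ = ∑' I : {I : Ideal (𝓞 K) // I ≠ ⊥},
      (Ideal.absNorm I.1 : ℝ) ^ (-σ) := by
    rw [← Pool.Agent.H77.GLA.tsum_real K σ hσ, Complex.norm_real, Real.norm_of_nonneg hA]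
  rw [← hB, h2 (σ : ℂ) (by simpa using hσ), norm_prod]
  have hC : ∀ j : Fin (Module.finrank ℚ K), ‖∑' m : ℕ, h j m * (m : ℂ) ^ (-(σ : ℂ))‖ ≤
      ∑' m : ℕ, (m : ℝ) ^ (-σ) := by
    intro j
    have hle : ∀ m : ℕ, ‖h j m * (m : ℂ) ^ (-(σ : ℂ))‖ ≤ (m : ℝ) ^ (-σ) := by
      intro m
      rcases Nat.eq_zero_or_pos m with rfl | hm
      · rw [h0 j]
        simp only [zero_mul, norm_zero]
        positivity
      · rw [norm_mul, Complex.norm_natCast_cpow_of_pos hm]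
        simp only [neg_re, ofReal_re]
        exact mul_le_of_le_one_left (by positivity) (h1 j m)
    refine (norm_tsum_le_tsum_norm (Summable.of_nonneg_of_le (fun _ => norm_nonneg _) hle
      hs)).trans ?_
    exact Summable.tsum_le_tsum hle (Summable.of_nonneg_of_le (fun _ => norm_nonneg _) hle hs) hs
  calc ∏ j : Fin (Module.finrank ℚ K), ‖∑' m : ℕ, h j m * (m : ℂ) ^ (-(σ : ℂ))‖ ≤
      ∏ _j : Fin (Module.finrank ℚ K), ∑' m : ℕ, (m : ℝ) ^ (-σ) :=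
        Finset.prod_le_prod (fun _ _ => norm_nonneg _) fun j _ => hC j
    _ = (∑' m : ℕ, (m : ℝ) ^ (-σ)) ^ n := by
        rw [Finset.prod_const, Finset.card_univ, Fintype.card_fin, hn]

open scoped Classical in
theorem pf_AK (hFP : LB.T_FP) (hME : Pool.Agent.H25.HK.T_ME) : U_AK := by
  intro n
  -- the Gamma factor
  obtain ⟨G, hG⟩ : ∃ G : ℝ, ∀ κ ∈ Icc (0 : ℝ) 1,
      (max 1 ‖Gammaℝ ((1 + κ : ℝ) : ℂ)‖) ^ n * (max 1 ‖Gammaℂ ((1 + κ : ℝ) : ℂ)‖) ^ n ≤ G := by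
    have hc1 : ContinuousOn (fun κ : ℝ => ‖Gammaℝ ((1 + κ : ℝ) : ℂ)‖) (Icc 0 1) := by
      intro κ hκ
      have h1 : Gammaℝ ((1 + κ : ℝ) : ℂ) ≠ 0 := Gammaℝ_ne_zero_of_re_pos (by
        simp
        linarith [hκ.1])
      have h2 : ContinuousAt (fun κ : ℝ => (Gammaℝ ((1 + κ : ℝ) : ℂ))⁻¹) κ :=
        (differentiable_Gammaℝ_inv.continuous.comp (by fun_prop :
          Continuous fun κ : ℝ => ((1 + κ : ℝ) : ℂ))).continuousAt
      have h3 : ContinuousAt (fun κ : ℝ => Gammaℝ ((1 + κ : ℝ) : ℂ)) κ := by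
        have h8 : (fun κ : ℝ => Gammaℝ ((1 + κ : ℝ) : ℂ)) =
            fun κ : ℝ => ((Gammaℝ ((1 + κ : ℝ) : ℂ))⁻¹)⁻¹ := by
          funext κ
          rw [inv_inv]
        rw [h8]
        exact h2.inv₀ (inv_ne_zero h1)
      exact h3.norm.continuousWithinAt
    have hc2 : ContinuousOn (fun κ : ℝ => ‖Gammaℂ ((1 + κ : ℝ) : ℂ)‖) (Icc 0 1) := by
      intro κ hκ
      have h3 : ContinuousAt (fun κ : ℝ => Gammaℂ ((1 + κ : ℝ) : ℂ)) κ := by
        have hcont : Continuous fun κ : ℝ => ((1 + κ : ℝ) : ℂ) := by fun_prop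
        have hd : ContinuousAt Gammaℂ ((1 + κ : ℝ) : ℂ) := by
          have h4 : DifferentiableAt ℂ Complex.Gamma ((1 + κ : ℝ) : ℂ) := by
            apply Complex.differentiableAt_Gamma
            intro m hm
            have h5 := congrArg Complex.re hm
            simp at h5
            have h6 : (0 : ℝ) ≤ m := by positivity
            linarith [hκ.1]
          have h7 : ContinuousAt (fun s : ℂ => 2 * (2 * Real.pi : ℂ) ^ (-s) * Complex.Gamma s)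
              ((1 + κ : ℝ) : ℂ) := by
            refine ContinuousAt.mul (ContinuousAt.mul continuousAt_const ?_) h4.continuousAt
            exact (continuousAt_id.neg).const_cpow (Or.inl (by
              simp [Real.pi_ne_zero]))
          exact h7
        exact ContinuousAt.comp (f := fun κ : ℝ => ((1 + κ : ℝ) : ℂ)) hd hcont.continuousAt
      exact h3.norm.continuousWithinAt
    have hc : ContinuousOn (fun κ : ℝ => (max 1 ‖Gammaℝ ((1 + κ : ℝ) : ℂ)‖) ^ n *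
        (max 1 ‖Gammaℂ ((1 + κ : ℝ) : ℂ)‖) ^ n) (Icc 0 1) :=
      ((continuousOn_const.sup hc1).pow n).mul ((continuousOn_const.sup hc2).pow n)
    obtain ⟨G, hG⟩ := isCompact_Icc.bddAbove_image hc
    exact ⟨G, fun κ hκ => hG ⟨κ, hκ, rfl⟩⟩
  have hG0 : 0 ≤ G := le_trans (by positivity) (hG 0 ⟨le_rfl, zero_le_one⟩)
  refine ⟨G * 2 ^ n, n, by positivity, by positivity, ?_⟩
  intro κ hκ hκ1 K _ _ hn ι _ M hM
  have hcw : 0 ≤ cw K := by unfold cw; positivity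
  have h1 : ∑ c, ∫ z in Fd K, AK K κ (M c) z ≤
      G * 2 ^ n * κ ^ (-(n : ℝ)) * (cw K * |(discr K : ℝ)| ^ ((1 + κ) / 2)) := by
    rw [mean_AK hFP hME M hM κ hκ]
    have h2 := (gK_le n hn ((1 + κ : ℝ) : ℂ)).trans (hG κ ⟨hκ.le, hκ1⟩)
    have h3 : ∑' I : {I : Ideal (𝓞 K) // I ≠ ⊥}, (Ideal.absNorm I.1 : ℝ) ^ (-(1 + κ)) ≤
        2 ^ n * κ ^ (-(n : ℝ)) := by
      refine (zK_le K n hn (1 + κ) (by linarith)).trans ?_
      have h4 := zeta_le κ hκ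
      have h5 : 1 + 1 / κ ≤ 2 / κ := by
        have h7 : (1 : ℝ) ≤ 1 / κ := by
          rw [le_div_iff₀ hκ]
          linarith
        have h8 : (2 : ℝ) / κ = 1 / κ + 1 / κ := by ring
        linarith
      have h6 : (0 : ℝ) ≤ ∑' m : ℕ, (m : ℝ) ^ (-(1 + κ)) := tsum_nonneg fun _ => by positivity
      calc (∑' m : ℕ, (m : ℝ) ^ (-(1 + κ))) ^ n ≤ (2 / κ) ^ n :=
            pow_le_pow_left₀ h6 (h4.trans h5) n
        _ = 2 ^ n * κ ^ (-(n : ℝ)) := by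
            rw [div_pow, Real.rpow_neg hκ.le, Real.rpow_natCast, div_eq_mul_inv]
    have h4 : (0 : ℝ) ≤ ∑' I : {I : Ideal (𝓞 K) // I ≠ ⊥},
        (Ideal.absNorm I.1 : ℝ) ^ (-(1 + κ)) := tsum_nonneg fun _ => by positivity
    calc cw K * |(discr K : ℝ)| ^ ((1 + κ) / 2) * ‖gK K ((1 + κ : ℝ) : ℂ)‖ *
        ∑' I : {I : Ideal (𝓞 K) // I ≠ ⊥}, (Ideal.absNorm I.1 : ℝ) ^ (-(1 + κ))
        ≤ cw K * |(discr K : ℝ)| ^ ((1 + κ) / 2) * G * (2 ^ n * κ ^ (-(n : ℝ))) := by gcongr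
      _ = _ := by ring
  refine ⟨h1, ?_⟩
  have h5 : ∀ c, ∫ z in Fd K, AK K κ (M c) (-z) = ∫ z in Fd K, AK K κ (M c) z := fun c =>
    mean_neg hFP (M c) (hM.1 c) κ hκ
  simp only [h5]
  exact h1

end Pool.Agent.H23.GLB
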