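import Pool.Agent.H23.GLB.Win

/-!
# From separated points to integrals
-/

set_option autoImplicit false

open MeasureTheory Set Filter
open scoped ENNReal

namespace Pool.Agent.H23.GLB

/-- the mean over the shifts of a sequence of separated points -/
lemma avg (T : ℝ) (G : ℝ → ℝ≥0∞) (hG : Measurable G) (b : ℝ≥0∞)
    (h : ∀ P : Finset ℝ, Sep P → (∀ t ∈ P, |t| ≤ T) → ∑ t ∈ P, G t ≤ b) :
    ∫⁻ t in Icc (-T) T, G t ≤ b := by
  classical
  set G1 : ℝ → ℝ≥0∞ := (Icc (-T) T).indicator G with hG1
  have hG1m : Measurable G1 := hG.indicator measurableSet_Icc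
  rw [← lintegral_indicator measurableSet_Icc, ← hG1, ← setLIntegral_univ,
    ← iUnion_Ico_intCast ℝ,
    lintegral_iUnion (fun k => measurableSet_Ico) (pairwise_disjoint_Ico_intCast ℝ)]
  have e1 : ∀ k : ℤ, ∫⁻ t in Ico (k : ℝ) (k + 1), G1 t = ∫⁻ u in Ico (0 : ℝ) 1, G1 (k + u) := by
    intro k
    rw [← lintegral_indicator measurableSet_Ico, ← lintegral_indicator measurableSet_Ico,
      ← lintegral_add_left_eq_self ((Ico (k : ℝ) (k + 1)).indicator G1) (k : ℝ)]
    refine lintegral_congr fun u => ?_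
    by_cases hu : u ∈ Ico (0 : ℝ) 1
    · have hu' : (k : ℝ) + u ∈ Ico (k : ℝ) (k + 1) := ⟨by linarith [hu.1], by linarith [hu.2]⟩
      rw [Set.indicator_of_mem hu, Set.indicator_of_mem hu']
    · have hu' : (k : ℝ) + u ∉ Ico (k : ℝ) (k + 1) := fun hh =>
        hu ⟨by linarith [hh.1], by linarith [hh.2]⟩
      rw [Set.indicator_of_notMem hu, Set.indicator_of_notMem hu']
  simp_rw [e1]
  rw [← lintegral_tsum (f := fun (k : ℤ) (u : ℝ) => G1 (k + u))
    (fun k => (hG1m.comp (measurable_const_add _)).aemeasurable)]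
  have hpt : ∀ u : ℝ, ∑' k : ℤ, G1 (k + u) ≤ b := by
    intro u
    rw [ENNReal.tsum_eq_iSup_sum]
    refine iSup_le fun s => ?_
    have hinj : Set.InjOn (fun k : ℤ => (k : ℝ) + u)
        ((s.filter fun k : ℤ => |(k : ℝ) + u| ≤ T : Finset ℤ) : Set ℤ) := by
      intro a _ b _ hab
      have : (a : ℝ) = b := by simpa using hab
      exact_mod_cast this
    calc ∑ k ∈ s, G1 (k + u) = ∑ k ∈ s.filter (fun k : ℤ => |(k : ℝ) + u| ≤ T), G (k + u) := by
          rw [Finset.sum_filter]
          refine Finset.sum_congr rfl fun k _ => ?_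
          by_cases hk : |(k : ℝ) + u| ≤ T
          · have hm : (k : ℝ) + u ∈ Icc (-T) T := abs_le.1 hk
            rw [if_pos hk, hG1, Set.indicator_of_mem hm]
          · have hm : (k : ℝ) + u ∉ Icc (-T) T := fun hh => hk (abs_le.2 hh)
            rw [if_neg hk, hG1, Set.indicator_of_notMem hm]
      _ = ∑ t ∈ (s.filter (fun k : ℤ => |(k : ℝ) + u| ≤ T)).image (fun k : ℤ => (k : ℝ) + u),
            G t := by
          rw [Finset.sum_image hinj]
      _ ≤ b := by
          refine h _ ?_ ?_
          · intro t ht t' ht' hne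
            obtain ⟨k, -, rfl⟩ := Finset.mem_image.1 ht
            obtain ⟨k', -, rfl⟩ := Finset.mem_image.1 ht'
            have hkk : k - k' ≠ 0 := by
              intro h0
              apply hne
              rw [sub_eq_zero.1 h0]
            have h1 := Int.one_le_abs hkk
            have e : (k : ℝ) + u - (k' + u) = ((k - k' : ℤ) : ℝ) := by push_cast; ring
            rw [e]
            exact_mod_cast h1
          · intro t ht
            obtain ⟨k, hk, rfl⟩ := Finset.mem_image.1 ht
            exact (Finset.mem_filter.1 hk).2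
  calc ∫⁻ u in Ico (0 : ℝ) 1, ∑' k : ℤ, G1 (k + u) ≤ ∫⁻ _u in Ico (0 : ℝ) 1, b :=
        lintegral_mono fun u => hpt u
    _ = b := by simp

end Pool.Agent.H23.GLB
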