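import Pool.Agent.H23.GLB.Win

/-!
# The combination of the two sums
-/

set_option autoImplicit false

open MeasureTheory Set Filter
open scoped ENNReal

namespace Pool.Agent.H23.GLB

lemma comb {ι : Type*} (S : Finset ι) (n : ℕ) {c0 cg M X Q R : ℝ} (hc0 : 0 ≤ c0) (hcg : 0 ≤ cg)
    (hM : 0 ≤ M) (hX0 : 0 < X) (hXX : X ^ 2 = Q) (u r : ℕ → ℝ) (hr : ∀ j, 0 ≤ r j) (hR : 0 ≤ R)
    (hser : ∑' j : ℕ, ENNReal.ofReal ((1 + j) ^ 2 * X ^ (2 * u j) * r j) ≤ ENNReal.ofReal R)
    (l : ι → ℝ≥0∞) (Ia Ib : ι → ℕ → ℕ → ℝ≥0∞)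
    (hone : ∀ χ ∈ S, l χ ≤ ENNReal.ofReal c0 *
      ((∑' j : ℕ, ENNReal.ofReal ((1 + j) ^ 2 * X ^ (2 * u j)) *
        ∑' k : ℕ, ENNReal.ofReal (Real.exp (-(k : ℝ) ^ 2 / 4)) * Ia χ j k) +
      ∑' j : ℕ, ENNReal.ofReal ((1 + j) ^ 2 * X ^ (-(2 * u j))) *
        ∑' k : ℕ, ENNReal.ofReal (Real.exp (-(k : ℝ) ^ 2 / 4)) * Ib χ j k))
    (hI : ∀ j k : ℕ, ∑ χ ∈ S, Ia χ j k ≤ ENNReal.ofReal (M * ((k : ℝ) + 2) ^ (2 * n) * r j))
    (hI' : ∀ j k : ℕ, ∑ χ ∈ S, Ib χ j k ≤ ENNReal.ofReal (cg * Q ^ (2 * u j) *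
      ((k : ℝ) + 2) ^ (2 * n) * (M * ((k : ℝ) + 2) ^ (2 * n) * r j))) :
    ∑ χ ∈ S, l χ ≤ ENNReal.ofReal (c0 * ((GK (2 * n) + cg * GK (4 * n)) * M * R)) := by
  classical
  have hG1 := gk_nonneg (2 * n)
  have hG2 := gk_nonneg (4 * n)
  have hQ0 : 0 < Q := by rw [← hXX]; positivity
  have hsum : ∀ (c : ℕ → ℝ≥0∞) (e : ℕ → ℝ≥0∞) (g : ι → ℕ → ℕ → ℝ≥0∞),
      ∑ χ ∈ S, ∑' j, c j * ∑' k, e k * g χ j k = ∑' j, c j * ∑' k, e k * ∑ χ ∈ S, g χ j k := by
    intro c e g
    rw [← Summable.tsum_finsetSum (fun _ _ => ENNReal.summable)]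
    refine tsum_congr fun j => ?_
    rw [← Finset.mul_sum]
    congr 1
    rw [← Summable.tsum_finsetSum (fun _ _ => ENNReal.summable)]
    refine tsum_congr fun k => ?_
    rw [← Finset.mul_sum]
  have hA : ∑ χ ∈ S, ∑' j : ℕ, ENNReal.ofReal ((1 + j) ^ 2 * X ^ (2 * u j)) *
        ∑' k : ℕ, ENNReal.ofReal (Real.exp (-(k : ℝ) ^ 2 / 4)) * Ia χ j k ≤
      ENNReal.ofReal (GK (2 * n) * M * R) := by
    rw [hsum]
    calc _ ≤ ∑' j : ℕ, ENNReal.ofReal ((1 + j) ^ 2 * X ^ (2 * u j)) *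
          ∑' k : ℕ, ENNReal.ofReal (Real.exp (-(k : ℝ) ^ 2 / 4)) *
            ENNReal.ofReal (M * ((k : ℝ) + 2) ^ (2 * n) * r j) := by
          gcongr with j k
          exact hI j k
      _ = ∑' j : ℕ, ENNReal.ofReal (GK (2 * n) * M) * ENNReal.ofReal ((1 + j) ^ 2 *
            X ^ (2 * u j) * r j) := by
          refine tsum_congr fun j => ?_
          have e1 : ∑' k : ℕ, ENNReal.ofReal (Real.exp (-(k : ℝ) ^ 2 / 4)) *
              ENNReal.ofReal (M * ((k : ℝ) + 2) ^ (2 * n) * r j) =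
              ENNReal.ofReal (M * r j) * ENNReal.ofReal (GK (2 * n)) := by
            rw [← gk_tsum, ← ENNReal.tsum_mul_left]
            refine tsum_congr fun k => ?_
            rw [mul_left_comm (ENNReal.ofReal (M * r j)) (ENNReal.ofReal (Real.exp _)) _,
              ← ENNReal.ofReal_mul (mul_nonneg hM (hr j))]
            congr 2
            ring
          rw [e1, ← ENNReal.ofReal_mul (mul_nonneg hM (hr j)),
            ← ENNReal.ofReal_mul (by positivity),
            ← ENNReal.ofReal_mul (by positivity)]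
          congr 1
          ring
      _ ≤ ENNReal.ofReal (GK (2 * n) * M) * ENNReal.ofReal R := by
          rw [ENNReal.tsum_mul_left]
          gcongr
      _ = _ := by rw [← ENNReal.ofReal_mul (by positivity)]
  have hB : ∑ χ ∈ S, ∑' j : ℕ, ENNReal.ofReal ((1 + j) ^ 2 * X ^ (-(2 * u j))) *
        ∑' k : ℕ, ENNReal.ofReal (Real.exp (-(k : ℝ) ^ 2 / 4)) * Ib χ j k ≤
      ENNReal.ofReal (cg * GK (4 * n) * M * R) := by
    rw [hsum]
    calc _ ≤ ∑' j : ℕ, ENNReal.ofReal ((1 + j) ^ 2 * X ^ (-(2 * u j))) *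
          ∑' k : ℕ, ENNReal.ofReal (Real.exp (-(k : ℝ) ^ 2 / 4)) *
            ENNReal.ofReal (cg * Q ^ (2 * u j) * ((k : ℝ) + 2) ^ (2 * n) *
              (M * ((k : ℝ) + 2) ^ (2 * n) * r j)) := by
          gcongr with j k
          exact hI' j k
      _ = ∑' j : ℕ, ENNReal.ofReal (cg * GK (4 * n) * M) *
            ENNReal.ofReal ((1 + j) ^ 2 * X ^ (2 * u j) * r j) := by
          refine tsum_congr fun j => ?_
          have hcc : 0 ≤ cg * Q ^ (2 * u j) * (M * r j) := by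
            have := hr j
            positivity
          have e1 : ∑' k : ℕ, ENNReal.ofReal (Real.exp (-(k : ℝ) ^ 2 / 4)) *
              ENNReal.ofReal (cg * Q ^ (2 * u j) * ((k : ℝ) + 2) ^ (2 * n) *
              (M * ((k : ℝ) + 2) ^ (2 * n) * r j)) =
              ENNReal.ofReal (cg * Q ^ (2 * u j) * (M * r j)) *
                ENNReal.ofReal (GK (4 * n)) := by
            rw [← gk_tsum, ← ENNReal.tsum_mul_left]
            refine tsum_congr fun k => ?_
            rw [mul_left_comm (ENNReal.ofReal (cg * Q ^ (2 * u j) * (M * r j)))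
              (ENNReal.ofReal (Real.exp _)) _, ← ENNReal.ofReal_mul hcc]
            congr 2
            have : (4 * n) = 2 * n + 2 * n := by ring
            rw [this, pow_add]
            ring
          rw [e1, ← ENNReal.ofReal_mul hcc, ← ENNReal.ofReal_mul (by positivity),
            ← ENNReal.ofReal_mul (by positivity)]
          congr 1
          have e2 : Q ^ (2 * u j) = X ^ (2 * u j) * X ^ (2 * u j) := by
            rw [← hXX, ← Real.rpow_natCast, ← Real.rpow_mul hX0.le, ← Real.rpow_add hX0]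
            congr 1
            push_cast
            ring
          have e3 : X ^ (-(2 * u j)) * Q ^ (2 * u j) = X ^ (2 * u j) := by
            rw [e2, ← mul_assoc, ← Real.rpow_add hX0]
            simp
          calc (1 + (j : ℝ)) ^ 2 * X ^ (-(2 * u j)) *
                (cg * Q ^ (2 * u j) * (M * r j) * GK (4 * n))
              = cg * GK (4 * n) * M * ((1 + (j : ℝ)) ^ 2 *
                (X ^ (-(2 * u j)) * Q ^ (2 * u j)) * r j) := by ring
            _ = _ := by rw [e3]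
      _ ≤ ENNReal.ofReal (cg * GK (4 * n) * M) * ENNReal.ofReal R := by
          rw [ENNReal.tsum_mul_left]
          gcongr
      _ = _ := by rw [← ENNReal.ofReal_mul (by positivity)]
  calc ∑ χ ∈ S, l χ ≤ ENNReal.ofReal c0 * (ENNReal.ofReal (GK (2 * n) * M * R) +
        ENNReal.ofReal (cg * GK (4 * n) * M * R)) := by
        refine (Finset.sum_le_sum hone).trans ?_
        rw [← Finset.mul_sum, Finset.sum_add_distrib]
        gcongr
    _ = _ := by
        rw [← ENNReal.ofReal_add (by positivity) (by positivity),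
          ← ENNReal.ofReal_mul (by positivity)]
        congr 1
        ring

end Pool.Agent.H23.GLB
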