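import Pool.Agent.H23.GLB.Fin1a
import Pool.Agent.H23.GLB.Comb

/-!
# The mean value at separated points
-/

set_option autoImplicit false

open NumberField NumberField.InfinitePlace NumberField.Units
  NumberField.Units.dirichletUnitTheorem MeasureTheory Set Filter Complex
open scoped nonZeroDivisors ENNReal

namespace Pool.Agent.H23.GLB

open Pool.Agent.H25.HK Pool.Agent.H23.LB Pool.Agent.H23.LC
open Pool.Agent.H28.RC (Rep ft idl)

section NF

/-- the mean value at separated points -/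
theorem core (hAF : Pool.Agent.H32.GLB.U_AFc) (hBK : U_BK) (hMV : U_MV) (hMD : U_MD)
    (hGR : U_GR2) (hGE : U_GE) (hDC : U_DC) (n : ℕ) (hn : 0 < n) :
    ∃ C B : ℝ, 0 ≤ C ∧ 0 ≤ B ∧ ∀ (K : Type) [Field K] [NumberField K],
      Module.finrank ℚ K = n → ∀ (f : Ideal (𝓞 K)), f ≠ ⊥ → ∀ (D : Sys K f)
      (L : HG K f → ℂ → ℂ), (∀ χ, IsL D χ (L χ)) → ∀ T : ℝ, 1 ≤ T →
      ∀ S : Finset (HG K f), (∀ χ ∈ S, χ ∈ box K f T) → ∀ P : HG K f → Finset ℝ,
      (∀ χ ∈ S, Sep (P χ) ∧ ∀ t ∈ P χ, |t| ≤ T) →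
      ∑ χ ∈ S, ∑ t ∈ P χ, ENNReal.ofReal (‖L χ (1 / 2 + t * I)‖ ^ 2) ≤
        ENNReal.ofReal (C * (1 + Real.log (|(discr K : ℝ)| * (Nf K f * T ^ n))) ^ B *
          (T ^ n * hrp K f)) := by
  obtain ⟨C₀, hC₀, hAF⟩ := win_AF hAF
  obtain ⟨Cs, hCs, hser⟩ := ser
  obtain ⟨Cv, Bv, hCv, hBv, hMV⟩ := hMV n hn
  obtain ⟨Cd, Bd, hCd, hBd, hMD⟩ := hMD n hn
  obtain ⟨Cg, hCg, hGR⟩ := hGR n
  have hG1 := gk_nonneg (2 * n)
  have hG2 := gk_nonneg (4 * n)
  refine ⟨C₀ * ((GK (2 * n) + Cg ^ 2 * 4 ^ n * GK (4 * n)) * (max Cv Cd * Real.exp 1) *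
    (Cs * Real.exp 1 * 2)), 2 + max Bv Bd + 3, by
      have := le_max_left Cv Cd
      have : 0 ≤ max Cv Cd := hCv.trans this
      positivity, by
      have := le_max_left Bv Bd
      linarith, ?_⟩
  intro K _ _ hK f hf D L hL T hT S hS P hP
  classical
  have hd := Pool.Agent.H23.GLA.disc_ge (K := K)
  have hN := Pool.Agent.H23.GLA.Nf_pos hf
  set d : ℝ := |(discr K : ℝ)| with hd'
  set N : ℝ := Nf K f with hN'
  have hH : 0 ≤ hrp K f := hrp_nonneg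
  set H : ℝ := hrp K f with hH'
  set Q : ℝ := d * (N * T ^ n) with hQ'
  have hTn : 1 ≤ T ^ n := one_le_pow₀ hT
  have hNT : 1 ≤ N * T ^ n := one_le_mul_of_one_le_of_one_le hN hTn
  have hQ : 1 ≤ Q := one_le_mul_of_one_le_of_one_le hd hNT
  have hlQ : 0 ≤ Real.log Q := Real.log_nonneg hQ
  set X : ℝ := Real.sqrt Q with hX'
  have hX : 1 ≤ X := Real.one_le_sqrt.2 hQ
  have hX0 : 0 < X := by linarith
  have hXX : X ^ 2 = Q := Real.sq_sqrt (by linarith)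
  set κ : ℝ := (1 + Real.log Q)⁻¹ with hκ'
  have hκ : 0 < κ := by positivity
  have hκ1 : κ ≤ 1 := inv_le_one_of_one_le₀ (by linarith)
  set u : ℕ → ℝ := fun j => if (2 : ℝ) ^ j ≤ X then κ else 1 with hu'
  have hu : ∀ j, u j = κ ∨ u j = 1 := fun j => by
    simp only [hu']
    split_ifs <;> simp
  have hu0 : ∀ j, 0 ≤ u j := fun j => by
    rcases hu j with h | h
    · rw [h]; exact hκ.le
    · rw [h]; exact zero_le_one
  have hu1 : ∀ j, u j ≤ 1 := fun j => by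
    rcases hu j with h | h
    · rw [h]; exact hκ1
    · rw [h]
  set CM : ℝ := max Cv Cd with hCM
  set BM : ℝ := max Bv Bd with hBM
  have hCM0 : 0 ≤ CM := hCv.trans (le_max_left _ _)
  set M : ℝ := CM * κ ^ (-BM) * Q ^ κ * H with hM
  have hM0 : 0 ≤ M := by positivity
  set r : ℕ → ℝ := fun j => (2 : ℝ) ^ (-(2 * (j * u j))) * (T ^ n + (Real.sqrt d * N)⁻¹ * 2 ^ j)
    with hr
  have hsd : 0 < Real.sqrt d := Real.sqrt_pos.2 (by linarith)
  have hr0 : ∀ j, 0 ≤ r j := fun j => by positivity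
  -- the weights
  have hβ : ∀ j : ℕ, ((2 : ℝ) ^ (-((j : ℝ) * (1 / 2 + u j)))) ^ 2 * 2 ^ j =
      (2 : ℝ) ^ (-(2 * (j * u j))) := by
    intro j
    rw [← Real.rpow_natCast, ← Real.rpow_natCast, ← Real.rpow_mul (by norm_num),
      ← Real.rpow_add (by norm_num)]
    congr 1
    push_cast
    ring
  have hwT : ∀ k : ℕ, 1 ≤ wi T k := fun k => hT.trans (wi_ge k)
  have hboxk : ∀ k : ℕ, ∀ χ ∈ S, χ ∈ box K f (wi T k) := fun k χ hχ v =>
    ⟨((hS χ hχ) v).1.trans (wi_ge k), ((hS χ hχ) v).2.trans (wi_ge k)⟩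
  -- constants
  have hbd : ∀ (C' B' : ℝ), 0 ≤ C' → C' ≤ CM → B' ≤ BM → ∀ (j k : ℕ),
      C' * κ ^ (-B') * (d * (N * wi T k ^ n)) ^ κ * (wi T k ^ n * H) *
        (((2 : ℝ) ^ (-((j : ℝ) * (1 / 2 + u j)))) ^ 2 * ((2 : ℝ) ^ j * (1 + (2 : ℝ) ^ j /
          (Real.sqrt d * (N * wi T k ^ n))))) ≤ M * ((k : ℝ) + 2) ^ (2 * n) * r j := by
    intro C' B' hC' hCC hBB j k
    refine (mvb (T := T) (k := (k : ℝ)) hC' hκ hκ1 hd hN hT (wi_ge k) (wi_le hT k)
      (Nat.cast_nonneg _) hH (by positivity)).trans ?_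
    rw [hβ j]
    have h1 : κ ^ (-B') ≤ κ ^ (-BM) :=
      Real.rpow_le_rpow_of_exponent_ge hκ hκ1 (by linarith)
    have e : (2 : ℝ) ^ (-(2 * (j * u j))) * (T ^ n + 2 ^ j / (Real.sqrt d * N)) = r j := by
      simp only [hr]
      rw [div_eq_inv_mul]
    rw [e]
    calc C' * κ ^ (-B') * (d * (N * T ^ n)) ^ κ * H * ((k : ℝ) + 2) ^ (2 * n) * r j
        ≤ CM * κ ^ (-BM) * (d * (N * T ^ n)) ^ κ * H * ((k : ℝ) + 2) ^ (2 * n) * r j := by
          have := hr0 j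
          gcongr
      _ = _ := by rw [hM, hQ']
  -- the first sums
  have hI : ∀ j k : ℕ, ∑ χ ∈ S, ∫⁻ w in Icc (-wi T k) (wi T k),
      ENNReal.ofReal (‖blk χ.ψ j (1 / 2 + u j + w * I)‖ ^ 2) ≤
        ENNReal.ofReal (M * ((k : ℝ) + 2) ^ (2 * n) * r j) := by
    intro j k
    obtain ⟨b, hb, hbs⟩ := blk_bs (K := K) j (1 / 2 + u j) (by have := hu0 j; positivity)
    have h1 := hMV κ hκ hκ1 K hK f hf (wi T k) (hwT k) S (hboxk k) (2 ^ j)
      ((2 : ℝ) ^ (-((j : ℝ) * (1 / 2 + u j)))) b (by positivity) (by positivity) hb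
    refine le_trans (le_of_eq ?_) (h1.trans (ENNReal.ofReal_le_ofReal ?_))
    · refine Finset.sum_congr rfl fun χ _ => lintegral_congr fun w => ?_
      have := hbs χ.ψ w
      push_cast at this
      rw [this]
    · exact hbd Cv Bv hCv (le_max_left _ _) (le_max_left _ _) j k
  -- the dual sums
  have hI' : ∀ j k : ℕ, ∑ χ ∈ S, ∫⁻ w in Icc (-wi T k) (wi T k),
      ENNReal.ofReal (‖gf χ (1 / 2 + u j - w * I) *
        blk (cd D χ) j (1 / 2 + u j - w * I)‖ ^ 2) ≤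
        ENNReal.ofReal (Cg ^ 2 * 4 ^ n * Q ^ (2 * u j) * ((k : ℝ) + 2) ^ (2 * n) *
          (M * ((k : ℝ) + 2) ^ (2 * n) * r j)) := by
    intro j k
    obtain ⟨b, hb, hbs⟩ := blk_bs (K := K) j (1 / 2 + u j) (by have := hu0 j; positivity)
    have h1 := hMD κ hκ hκ1 K hK f hf D (wi T k) (hwT k) S (hboxk k) (2 ^ j)
      ((2 : ℝ) ^ (-((j : ℝ) * (1 / 2 + u j)))) b (by positivity) (by positivity) hb
    have h2 := h1.trans (ENNReal.ofReal_le_ofReal
      (hbd Cd Bd hCd (le_max_right _ _) (le_max_right _ _) j k))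
    have hk2 : (1 : ℝ) ≤ (k : ℝ) + 2 := by
      have : (0 : ℝ) ≤ k := Nat.cast_nonneg _
      linarith
    -- the factor
    have h3 : ∀ χ ∈ S, ∀ w ∈ Icc (-wi T k) (wi T k), ‖gf χ (1 / 2 + u j - w * I)‖ ^ 2 ≤
        Cg ^ 2 * 4 ^ n * Q ^ (2 * u j) * ((k : ℝ) + 2) ^ (2 * n) := by
      intro χ hχ w hw
      have hre : (1 / 2 + u j - w * I : ℂ).re = 1 / 2 + u j := by simp
      have him : (1 / 2 + u j - w * I : ℂ).im = -w := by simp
      have h4 := gf_norm hf hK hGR χ hT (hS χ hχ) (1 / 2 + u j - w * I)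
        (by rw [hre]; linarith [hu0 j]) (by rw [hre]; linarith [hu1 j])
      rw [hre, him, abs_neg] at h4
      have hw' : |w| ≤ wi T k := abs_le.2 hw
      have h5 : T + |w| ≤ 2 * ((k : ℝ) + 2) * T := by
        have := wi_le hT k
        have := wi_ge (T := T) k
        linarith
      have h6 : |(discr K : ℝ)| * (Nf K f * (T + |w|) ^ n) ≤ Q * (2 * ((k : ℝ) + 2)) ^ n := by
        calc |(discr K : ℝ)| * (Nf K f * (T + |w|) ^ n)
            ≤ |(discr K : ℝ)| * (Nf K f * (2 * ((k : ℝ) + 2) * T) ^ n) := by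
              have : 0 ≤ |w| := abs_nonneg w
              gcongr
          _ = Q * (2 * ((k : ℝ) + 2)) ^ n := by rw [hQ', hd', hN', mul_pow]; ring
      have h7 : (1 / 2 + u j - 1 / 2 : ℝ) = u j := by ring
      rw [h7] at h4
      have h8 : ‖gf χ (1 / 2 + u j - w * I)‖ ≤ Cg * (Q ^ (u j) * (2 * ((k : ℝ) + 2)) ^ n) := by
        refine h4.trans ?_
        gcongr
        calc (|(discr K : ℝ)| * (Nf K f * (T + |w|) ^ n)) ^ u j
            ≤ (Q * (2 * ((k : ℝ) + 2)) ^ n) ^ u j := by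
              apply Real.rpow_le_rpow _ h6 (hu0 j)
              have : 0 ≤ |w| := abs_nonneg w
              positivity
          _ = Q ^ u j * ((2 * ((k : ℝ) + 2)) ^ n) ^ u j := by
              rw [Real.mul_rpow (by positivity) (by positivity)]
          _ ≤ Q ^ u j * ((2 * ((k : ℝ) + 2)) ^ n) ^ (1 : ℝ) := by
              gcongr
              · exact one_le_pow₀ (by linarith)
              · exact hu1 j
          _ = _ := by rw [Real.rpow_one]
      calc ‖gf χ (1 / 2 + u j - w * I)‖ ^ 2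
          ≤ (Cg * (Q ^ (u j) * (2 * ((k : ℝ) + 2)) ^ n)) ^ 2 := by gcongr
        _ = Cg ^ 2 * 4 ^ n * Q ^ (2 * u j) * ((k : ℝ) + 2) ^ (2 * n) := by
            have e1 : Q ^ (2 * u j) = (Q ^ u j) ^ 2 := by
              rw [mul_comm, Real.rpow_mul (by positivity)]
              norm_num
            have e2 : (4 : ℝ) ^ n = (2 ^ n) ^ 2 := by
              rw [← pow_mul, mul_comm, pow_mul]
              norm_num
            rw [e1, e2, mul_pow 2, pow_mul]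
            have e3 : (((k : ℝ) + 2) ^ 2) ^ n = (((k : ℝ) + 2) ^ n) ^ 2 := by
              rw [← pow_mul, ← pow_mul, mul_comm]
            rw [e3]
            ring
    set Gb : ℝ := Cg ^ 2 * 4 ^ n * Q ^ (2 * u j) * ((k : ℝ) + 2) ^ (2 * n) with hGb
    have hGb0 : 0 ≤ Gb := by positivity
    calc ∑ χ ∈ S, ∫⁻ w in Icc (-wi T k) (wi T k),
        ENNReal.ofReal (‖gf χ (1 / 2 + u j - w * I) *
          blk (cd D χ) j (1 / 2 + u j - w * I)‖ ^ 2)
        ≤ ∑ χ ∈ S, ∫⁻ w in Icc (-wi T k) (wi T k), ENNReal.ofReal Gb *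
          ENNReal.ofReal (‖bs (cd D χ) b (2 ^ j) (-w)‖ ^ 2) := by
          refine Finset.sum_le_sum fun χ hχ => ?_
          refine setLIntegral_mono' measurableSet_Icc fun w hw => ?_
          rw [← ENNReal.ofReal_mul hGb0]
          apply ENNReal.ofReal_le_ofReal
          have e := hbs (cd D χ) (-w)
          have e' : (((1 / 2 + u j : ℝ) : ℂ) + ((-w : ℝ) : ℂ) * I) = 1 / 2 + u j - w * I := by
            push_cast
            ring
          rw [e'] at e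
          rw [norm_mul, mul_pow, e]
          exact mul_le_mul_of_nonneg_right (h3 χ hχ w hw) (by positivity)
      _ = ENNReal.ofReal Gb * ∑ χ ∈ S, ∫⁻ w in Icc (-wi T k) (wi T k),
          ENNReal.ofReal (‖bs (cd D χ) b (2 ^ j) w‖ ^ 2) := by
          rw [Finset.mul_sum]
          refine Finset.sum_congr rfl fun χ _ => ?_
          rw [lintegral_const_mul' _ _ ENNReal.ofReal_ne_top,
            icc_neg (wi T k) (fun w => ENNReal.ofReal (‖bs (cd D χ) b (2 ^ j) w‖ ^ 2))]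
      _ ≤ ENNReal.ofReal Gb * ENNReal.ofReal (M * ((k : ℝ) + 2) ^ (2 * n) * r j) := by
          gcongr
      _ = _ := by rw [← ENNReal.ofReal_mul hGb0]
  -- the approximate functional equations
  have hone : ∀ χ ∈ S, ∑ t ∈ P χ, ENNReal.ofReal (‖L χ (1 / 2 + t * I)‖ ^ 2) ≤
      ENNReal.ofReal (C₀ * κ ^ (-2 : ℝ)) *
      ((∑' j : ℕ, ENNReal.ofReal ((1 + j) ^ 2 * X ^ (2 * u j)) *
        ∑' k : ℕ, ENNReal.ofReal (Real.exp (-(k : ℝ) ^ 2 / 4)) *
          ∫⁻ w in Icc (-wi T k) (wi T k),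
            ENNReal.ofReal (‖blk χ.ψ j (1 / 2 + u j + w * I)‖ ^ 2)) +
      ∑' j : ℕ, ENNReal.ofReal ((1 + j) ^ 2 * X ^ (-(2 * u j))) *
        ∑' k : ℕ, ENNReal.ofReal (Real.exp (-(k : ℝ) ^ 2 / 4)) *
          ∫⁻ w in Icc (-wi T k) (wi T k), ENNReal.ofReal
            (‖gf χ (1 / 2 + u j - w * I) * blk (cd D χ) j (1 / 2 + u j - w * I)‖ ^ 2)) := by
    intro χ hχ
    exact oneχ hAF hBK hGE hDC hf D χ (L χ) (hL χ)
      (gf_growth hf hK hCg hGR χ hT (hS χ hχ)) hκ hκ1 hX0 hu (P χ) (by linarith) (hP χ hχ)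
  have hserX := hser X κ (T ^ n) (Real.sqrt d * N)⁻¹ u hX hκ hκ1 (by positivity) (by positivity)
    (fun j => rfl)
  have hR0 : 0 ≤ Cs * (1 + Real.log X) ^ 3 * X ^ (2 * κ) * (T ^ n + (Real.sqrt d * N)⁻¹ * X) := by
    have : 0 ≤ Real.log X := Real.log_nonneg hX
    positivity
  have hcomb := comb S n (c0 := C₀ * κ ^ (-2 : ℝ)) (cg := Cg ^ 2 * 4 ^ n) (M := M) (X := X)
    (Q := Q) (by positivity) (by positivity) hM0 hX0 hXX u r hr0 hR0 hserX
    (fun χ => ∑ t ∈ P χ, ENNReal.ofReal (‖L χ (1 / 2 + t * I)‖ ^ 2)) _ _ hone hI hI'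
  -- the end
  have hlX : Real.log X ≤ Real.log Q := by
    apply Real.log_le_log hX0
    rw [← hXX]
    exact le_self_pow₀ hX (by norm_num)
  have hlX0 : 0 ≤ Real.log X := Real.log_nonneg hX
  have hXκ : X ^ (2 * κ) ≤ Real.exp 1 := by
    have : X ^ (2 * κ) = Q ^ κ := by
      rw [← hXX, ← Real.rpow_natCast, ← Real.rpow_mul hX0.le]
      norm_num
    rw [this]
    exact qk hQ hκ'
  have hXd : (Real.sqrt d * N)⁻¹ * X ≤ T ^ n := by
    rw [inv_mul_le_iff₀ (by positivity)]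
    have h1 : X ≤ Real.sqrt d * (N * T ^ n) := by
      calc X = Real.sqrt d * Real.sqrt (N * T ^ n) := by
            rw [hX', hQ', Real.sqrt_mul (by linarith)]
        _ ≤ Real.sqrt d * (N * T ^ n) := by
            refine mul_le_mul_of_nonneg_left ?_ hsd.le
            rw [Real.sqrt_le_left (by linarith)]
            exact le_self_pow₀ hNT (by norm_num)
    linarith
  refine hcomb.trans ?_
  apply ENNReal.ofReal_le_ofReal
  have hl1 : 0 < 1 + Real.log Q := by linarith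
  have e1 : κ ^ (-2 : ℝ) = (1 + Real.log Q) ^ (2 : ℝ) := by
    rw [hκ', Real.inv_rpow hl1.le, Real.rpow_neg hl1.le, inv_inv]
  have e2 : κ ^ (-BM) = (1 + Real.log Q) ^ BM := by
    rw [hκ', Real.inv_rpow hl1.le, Real.rpow_neg hl1.le, inv_inv]
  have e3 : (1 + Real.log Q) ^ (2 + BM + 3) = (1 + Real.log Q) ^ (2 : ℝ) *
      (1 + Real.log Q) ^ BM * (1 + Real.log Q) ^ 3 := by
    rw [Real.rpow_add hl1, Real.rpow_add hl1]
    congr 1
    exact_mod_cast Real.rpow_natCast _ 3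
  have hQκ := qk hQ hκ'
  rw [hM, e1, e2, e3]
  calc C₀ * (1 + Real.log Q) ^ (2 : ℝ) * ((GK (2 * n) + Cg ^ 2 * 4 ^ n * GK (4 * n)) *
        (CM * (1 + Real.log Q) ^ BM * Q ^ κ * H) *
        (Cs * (1 + Real.log X) ^ 3 * X ^ (2 * κ) * (T ^ n + (Real.sqrt d * N)⁻¹ * X)))
      ≤ C₀ * (1 + Real.log Q) ^ (2 : ℝ) * ((GK (2 * n) + Cg ^ 2 * 4 ^ n * GK (4 * n)) *
        (CM * (1 + Real.log Q) ^ BM * Real.exp 1 * H) *
        (Cs * (1 + Real.log Q) ^ 3 * Real.exp 1 * (T ^ n + T ^ n))) := by gcongr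
    _ = _ := by ring

end NF

end Pool.Agent.H23.GLB
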