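import Pool.Agent.H23.GLA.Chain
import Pool.Agent.H23.GLB.Fin1b
import Pool.Agent.H23.GLB.AK
import Pool.Agent.H3.LC.GR
import Pool.Agent.H18.GLB.GE
import Pool.Agent.H18.GLB.UH
import Pool.Agent.H19.GLB.CN
import Pool.Agent.H19.GLB.FG
import Pool.Agent.H19.GLB.PS
import Pool.Agent.H19.GLB.VL
import Pool.Agent.H19.GLB.ZN
import Pool.Agent.H21.GLB.SM
import Pool.Agent.H25.GLB.FK
import Pool.Agent.H25.GLB.SK
import Pool.Agent.H26.GLB.CB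
import Pool.Agent.H28.GLB.WK
import Pool.Agent.H32.GLB.AF
import Pool.Agent.H33.GLB.TH
import Pool.Agent.H34.GLB.DC
import Pool.Agent.H35.GLB.UD
import Pool.Agent.H42.GLB.AV
import Pool.Agent.H50.GLB.PM
import Pool.Agent.H56.GLB.FF
import Pool.Agent.H56.GLB.GK
import Pool.Agent.H56.GLB.PV
import Pool.Agent.H59.LC.PW
import Pool.Agent.H60.GLB.CG
import Pool.Agent.H60.GLB.OG
import Pool.Agent.H60.GLB.PD
import Pool.Agent.H61.GLB.TF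
import Pool.Agent.H61.GLB.UB
import Pool.Agent.H64.GLB.AG
import Pool.Agent.H64.GLB.AN
import Pool.Agent.H64.GLB.BK
import Pool.Agent.H65.GLB.MV
import Pool.Agent.H65.GLB.PX
import Pool.Agent.H66.GLB.BT
import Pool.Agent.H81.GLB.TK
import Pool.Agent.H86.GLB.MD
import Pool.Agent.H90.GLB.MK
import Pool.Agent.H90.GLB.MM
import Pool.Agent.H91.GLB.CI

/-!
# The chain of the modules
-/

set_option autoImplicit false

open NumberField NumberField.InfinitePlace NumberField.Units Complex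

namespace Pool.Agent.H23.GLB

open Pool.Agent.H23.LB Pool.Agent.H23.LC Pool.Agent.H20.HKI Pool.Agent.H23.GLA

theorem g_PW : U_PW := Pool.Agent.H59.LC.pf_PW
theorem g_PV : U_PV := Pool.Agent.H56.GLB.pf_PV g_PW c_NS
theorem g_AK : U_AK := pf_AK c_FP c_ME
theorem g_AV : U_AV := Pool.Agent.H42.GLB.pf_AV g_PV g_AK c_RR c_FP Pool.Agent.H66.HK.fd
theorem g_VL : U_VL := Pool.Agent.H19.GLB.pf_VL
theorem g_AN : U_AN := Pool.Agent.H64.GLB.pf_AN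
theorem g_TH : U_TH := Pool.Agent.H33.GLB.pf_TH
theorem g_UH : U_UH := Pool.Agent.H18.GLB.pf_UH g_VL c_PU
theorem g_SM : U_SM := Pool.Agent.H21.GLB.pf_SM b_TH b_YC Pool.Agent.H66.HK.fd
theorem g_CI : U_CI := Pool.Agent.H91.GLB.pf_CI
theorem g_ZN : U_ZN := Pool.Agent.H19.GLB.pf_ZN
theorem g_PS : U_PS := Pool.Agent.H19.GLB.pf_PS
theorem g_PD : U_PD := Pool.Agent.H60.GLB.pf_PD
theorem g_TF : U_TF := Pool.Agent.H61.GLB.pf_TF g_VL
theorem g_FF : U_FF := Pool.Agent.H56.GLB.pf_FF c_FP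
theorem g_CN : U_CN := Pool.Agent.H19.GLB.pf_CN g_TF g_FF g_AV
theorem g_AG : U_AG := Pool.Agent.H64.GLB.pf_AG
theorem g_CG : U_CG := Pool.Agent.H60.GLB.pf_CG g_AG
theorem g_OG : U_OG := Pool.Agent.H60.GLB.pf_OG g_AG g_CG c_PU
theorem g_BT : U_BT := Pool.Agent.H66.GLB.pf_BT g_OG c_PU
theorem g_DC : U_DC := Pool.Agent.H34.GLB.pf_DC g_AG g_CG c_RR c_PU
theorem g_UB : U_UB := Pool.Agent.H61.GLB.pf_UB g_AN g_AG g_CG c_PU
theorem g_UD : U_UD := Pool.Agent.H35.GLB.pf_UD g_AN g_AG g_DC c_PU g_SM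
theorem g_MV : U_MV := Pool.Agent.H65.GLB.pf_MV g_BT g_UB g_UH g_SM g_PS g_TH g_CN c_SY
theorem g_MD : U_MD :=
  Pool.Agent.H86.GLB.pf_MD g_BT g_UD g_UH g_SM g_CI g_ZN g_PD g_TH g_CN c_RR
theorem g_PX : U_PX := Pool.Agent.H65.GLB.pf_PX
theorem g_PM : U_PM := Pool.Agent.H50.GLB.pf_PM g_PX
theorem g_TK : U_TK := Pool.Agent.H81.GLB.pf_TK g_PM
  (Pool.Agent.H68.RC.pf_GM Pool.Agent.H3.HK.gm) (Pool.Agent.H68.RC.pf_LB Pool.Agent.H3.HK.lb)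
theorem g_SK : U_SK := Pool.Agent.H25.GLB.pf_SK g_AG b_TH
theorem g_WK : U_WK := Pool.Agent.H28.GLB.pf_WK g_TK g_SK g_CG c_PU b_TH
  (Pool.Agent.H87.HK.dc b_TH b_YC Pool.Agent.H66.HK.fd) b_UI b_YC Pool.Agent.H66.HK.fd b_DU
theorem g_GK : U_GK := Pool.Agent.H56.GLB.pf_GK g_AG c_PU
theorem g_MK : U_MK := Pool.Agent.H90.GLB.pf_MK g_GK g_SK g_CG g_AG c_PU
theorem g_MM : U_MM := Pool.Agent.H90.GLB.pf_MM g_GK g_SK g_DC g_CG g_AG c_PU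
theorem g_GE : U_GE := Pool.Agent.H18.GLB.pf_GE
theorem g_GR : U_GR2 := Pool.Agent.H3.LC.pf_GR
theorem g_FK : U_FK := Pool.Agent.H25.GLB.pf_FK g_WK g_MK g_MM g_GE g_OG c_RR g_CG g_DC
  Pool.Agent.H11.HK.bd Pool.Agent.H63.HK.ds b_DU
theorem g_BK : U_BK := Pool.Agent.H64.GLB.pf_BK
theorem g_CB : U_CB := Pool.Agent.H26.GLB.pf_CB
theorem g_FG : U_FG := Pool.Agent.H19.GLB.pf_FG g_MV

end Pool.Agent.H23.GLB
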