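import Mathlib

/-!
# A dyadic series
-/

set_option autoImplicit false

open MeasureTheory Set Filter
open scoped ENNReal

namespace Pool.Agent.H23.GLB

lemma si_sum : Summable fun i : ℕ => ((i : ℝ) + 1) ^ 2 * (1 / 2 : ℝ) ^ i := by
  have h := summable_pow_mul_geometric_of_norm_lt_one (R := ℝ) 2 (r := 1 / 2)
    (by rw [Real.norm_eq_abs, abs_of_pos (by norm_num)]; norm_num)
  have h2 := (summable_nat_add_iff 1).2 h
  have h3 := h2.mul_left 2
  refine h3.congr fun i => ?_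
  push_cast
  rw [pow_succ]
  ring

/-- the constant -/
noncomputable def SI : ℝ := ∑' i : ℕ, ((i : ℝ) + 1) ^ 2 * (1 / 2 : ℝ) ^ i

lemma si_nonneg : 0 ≤ SI := tsum_nonneg fun i => by positivity

/-- the series -/
lemma ser : ∃ C : ℝ, 0 ≤ C ∧ ∀ (X κ a b : ℝ) (u : ℕ → ℝ), 1 ≤ X → 0 < κ → κ ≤ 1 → 0 ≤ a → 0 ≤ b →
    (∀ j, u j = if (2 : ℝ) ^ j ≤ X then κ else 1) →
    ∑' j : ℕ, ENNReal.ofReal ((1 + j) ^ 2 * X ^ (2 * u j) *
      ((2 : ℝ) ^ (-(2 * (j * u j))) * (a + b * 2 ^ j))) ≤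
      ENNReal.ofReal (C * (1 + Real.log X) ^ 3 * X ^ (2 * κ) * (a + b * X)) := by
  refine ⟨8 + 9 * SI, by have := si_nonneg; positivity, ?_⟩
  intro X κ a b u hX hκ hκ1 ha hb hu
  have hX0 : 0 < X := by linarith
  have hlX : 0 ≤ Real.log X := Real.log_nonneg hX
  have hl2 : 0 < Real.log 2 := Real.log_pos (by norm_num)
  set J : ℕ := ⌊Real.logb 2 X⌋₊ with hJ
  have hlog : 0 ≤ Real.logb 2 X := Real.logb_nonneg (by norm_num) hX
  have h1 : (J : ℝ) ≤ Real.logb 2 X := Nat.floor_le hlog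
  have h2 : Real.logb 2 X < J + 1 := Nat.lt_floor_add_one _
  have hJX : (2 : ℝ) ^ J ≤ X := by
    rw [← Real.rpow_natCast]
    exact (Real.le_logb_iff_rpow_le (by norm_num) hX0).1 h1
  have hXJ : X < (2 : ℝ) ^ (J + 1) := by
    have := (Real.logb_lt_iff_lt_rpow (by norm_num) hX0).1 h2
    have e : ((J : ℝ) + 1) = ((J + 1 : ℕ) : ℝ) := by push_cast; ring
    rw [e, Real.rpow_natCast] at this
    exact this
  have hJL : (J : ℝ) ≤ 2 * Real.log X := by
    refine h1.trans ?_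
    rw [Real.logb, div_le_iff₀ hl2]
    have : (1 / 2 : ℝ) ≤ Real.log 2 := by
      have := Real.log_two_gt_d9
      linarith
    nlinarith
  have hJ0 : (0 : ℝ) ≤ J := Nat.cast_nonneg _
  have hab : 0 ≤ a + b * X := by positivity
  have hXκ : 1 ≤ X ^ (2 * κ) := Real.one_le_rpow hX (by positivity)
  rw [← Summable.sum_add_tsum_nat_add' (k := J + 1) ENNReal.summable]
  have hA : ∑ j ∈ Finset.range (J + 1), ENNReal.ofReal ((1 + j) ^ 2 * X ^ (2 * u j) *
      ((2 : ℝ) ^ (-(2 * (j * u j))) * (a + b * 2 ^ j))) ≤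
      ENNReal.ofReal ((1 + J) ^ 3 * X ^ (2 * κ) * (a + b * X)) := by
    rw [← ENNReal.ofReal_sum_of_nonneg (fun j _ => by positivity)]
    apply ENNReal.ofReal_le_ofReal
    calc ∑ j ∈ Finset.range (J + 1), (1 + j : ℝ) ^ 2 * X ^ (2 * u j) *
        ((2 : ℝ) ^ (-(2 * (j * u j))) * (a + b * 2 ^ j))
        ≤ ∑ j ∈ Finset.range (J + 1), (1 + J : ℝ) ^ 2 * X ^ (2 * κ) * (a + b * X) := by
          refine Finset.sum_le_sum fun j hj => ?_
          have hjJ : j ≤ J := Nat.lt_succ_iff.1 (Finset.mem_range.1 hj)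
          have hjX : (2 : ℝ) ^ j ≤ X :=
            (pow_le_pow_right₀ (by norm_num) hjJ).trans hJX
          have huj : u j = κ := by rw [hu, if_pos hjX]
          rw [huj]
          have hj1 : (1 + j : ℝ) ≤ 1 + J := by
            have : (j : ℝ) ≤ J := by exact_mod_cast hjJ
            linarith
          have h2' : (2 : ℝ) ^ (-(2 * (j * κ))) ≤ 1 :=
            Real.rpow_le_one_of_one_le_of_nonpos (by norm_num) (by
              have : (0 : ℝ) ≤ j := Nat.cast_nonneg _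
              have := mul_nonneg this hκ.le
              linarith)
          have h3 : (2 : ℝ) ^ (-(2 * (j * κ))) * (a + b * 2 ^ j) ≤ a + b * X := by
            calc (2 : ℝ) ^ (-(2 * (j * κ))) * (a + b * 2 ^ j) ≤ 1 * (a + b * 2 ^ j) := by gcongr
              _ ≤ a + b * X := by rw [one_mul]; gcongr
          gcongr
      _ = (1 + J) ^ 3 * X ^ (2 * κ) * (a + b * X) := by
          rw [Finset.sum_const, Finset.card_range, nsmul_eq_mul]
          push_cast
          ring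
  have hB : ∑' i : ℕ, ENNReal.ofReal ((1 + ((i + (J + 1) : ℕ) : ℝ)) ^ 2 *
      X ^ (2 * u (i + (J + 1))) * ((2 : ℝ) ^ (-(2 * (((i + (J + 1) : ℕ) : ℝ) *
        u (i + (J + 1))))) * (a + b * 2 ^ (i + (J + 1))))) ≤
      ENNReal.ofReal (SI * (J + 2) ^ 2 * (a + b * X)) := by
    have hle : ∀ i : ℕ, ENNReal.ofReal ((1 + ((i + (J + 1) : ℕ) : ℝ)) ^ 2 *
      X ^ (2 * u (i + (J + 1))) * ((2 : ℝ) ^ (-(2 * (((i + (J + 1) : ℕ) : ℝ) *
        u (i + (J + 1))))) * (a + b * 2 ^ (i + (J + 1))))) ≤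
        ENNReal.ofReal ((J + 2 : ℝ) ^ 2 * (a + b * X)) *
          ENNReal.ofReal (((i : ℝ) + 1) ^ 2 * (1 / 2 : ℝ) ^ i) := by
      intro i
      rw [← ENNReal.ofReal_mul (by positivity)]
      apply ENNReal.ofReal_le_ofReal
      set j := i + (J + 1) with hj
      have hp : (2 : ℝ) ^ j = 2 ^ i * 2 ^ (J + 1) := by rw [hj, pow_add]
      have hi1 : (1 : ℝ) ≤ 2 ^ i := one_le_pow₀ (by norm_num)
      have hjX : X < (2 : ℝ) ^ j := by
        rw [hp]
        nlinarith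
      have huj : u j = 1 := by rw [hu, if_neg (not_le.2 hjX)]
      rw [huj]
      have e1 : X ^ (2 * (1 : ℝ)) = X ^ 2 := by norm_num
      have hP0 : (0 : ℝ) < 2 ^ j := by positivity
      have e2 : (2 : ℝ) ^ (-(2 * ((j : ℝ) * 1))) = ((2 ^ j) ^ 2)⁻¹ := by
        rw [Real.rpow_neg (by norm_num)]
        congr 1
        rw [← pow_mul, ← Real.rpow_natCast]
        congr 1
        push_cast
        ring
      rw [e1, e2]
      have hq : X / 2 ^ j ≤ (1 / 2 : ℝ) ^ i := by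
        rw [div_le_iff₀ hP0, hp, ← mul_assoc, ← mul_pow]
        norm_num
        exact hXJ.le
      have hq0 : 0 ≤ X / 2 ^ j := by positivity
      have hq1 : X / 2 ^ j ≤ 1 := by
        rw [div_le_one hP0]
        exact hjX.le
      have e3 : X ^ 2 * (((2 ^ j) ^ 2)⁻¹ * (a + b * 2 ^ j)) =
          (X / 2 ^ j) * ((X / 2 ^ j) * a + b * X) := by
        field_simp
      have h4 : X ^ 2 * (((2 ^ j) ^ 2)⁻¹ * (a + b * 2 ^ j)) ≤ (1 / 2 : ℝ) ^ i * (a + b * X) := by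
        rw [e3]
        have : (X / 2 ^ j) * a + b * X ≤ a + b * X := by nlinarith
        exact mul_le_mul hq this (by positivity) (by positivity)
      have h5 : (1 + (j : ℝ)) ^ 2 ≤ (J + 2 : ℝ) ^ 2 * ((i : ℝ) + 1) ^ 2 := by
        rw [← mul_pow]
        apply pow_le_pow_left₀ (by positivity)
        have : (j : ℝ) = i + (J + 1) := by rw [hj]; push_cast; ring
        rw [this]
        have hi0 : (0 : ℝ) ≤ i := Nat.cast_nonneg _
        nlinarith
      calc (1 + (j : ℝ)) ^ 2 * X ^ 2 * (((2 ^ j) ^ 2)⁻¹ * (a + b * 2 ^ j))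
          = (1 + (j : ℝ)) ^ 2 * (X ^ 2 * (((2 ^ j) ^ 2)⁻¹ * (a + b * 2 ^ j))) := by ring
        _ ≤ ((J + 2 : ℝ) ^ 2 * ((i : ℝ) + 1) ^ 2) * ((1 / 2 : ℝ) ^ i * (a + b * X)) :=
            mul_le_mul h5 h4 (by positivity) (by positivity)
        _ = _ := by ring
    refine (ENNReal.tsum_le_tsum hle).trans ?_
    rw [ENNReal.tsum_mul_left, ← ENNReal.ofReal_tsum_of_nonneg (fun i => by positivity) si_sum,
      ← ENNReal.ofReal_mul (by positivity)]
    apply ENNReal.ofReal_le_ofReal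
    unfold SI
    apply le_of_eq
    ring
  refine (add_le_add hA hB).trans ?_
  rw [← ENNReal.ofReal_add (by positivity) (by have := si_nonneg; positivity)]
  apply ENNReal.ofReal_le_ofReal
  have hSI := si_nonneg
  have g1 : (1 + J : ℝ) ^ 3 ≤ 8 * (1 + Real.log X) ^ 3 := by
    have : (1 + J : ℝ) ≤ 2 * (1 + Real.log X) := by linarith
    calc (1 + J : ℝ) ^ 3 ≤ (2 * (1 + Real.log X)) ^ 3 := pow_le_pow_left₀ (by positivity) this 3
      _ = _ := by ring
  have g2 : (J + 2 : ℝ) ^ 2 ≤ 9 * (1 + Real.log X) ^ 3 * X ^ (2 * κ) := by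
    have : (J + 2 : ℝ) ≤ 3 * (1 + Real.log X) := by linarith
    calc (J + 2 : ℝ) ^ 2 ≤ (3 * (1 + Real.log X)) ^ 2 := pow_le_pow_left₀ (by positivity) this 2
      _ = 9 * (1 + Real.log X) ^ 2 * 1 := by ring
      _ ≤ 9 * (1 + Real.log X) ^ 3 * X ^ (2 * κ) := by
        have hh : (1 + Real.log X) ^ 2 ≤ (1 + Real.log X) ^ 3 :=
          pow_le_pow_right₀ (by linarith) (by norm_num)
        gcongr
  calc (1 + J : ℝ) ^ 3 * X ^ (2 * κ) * (a + b * X) + SI * (J + 2) ^ 2 * (a + b * X)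
      ≤ (8 * (1 + Real.log X) ^ 3) * X ^ (2 * κ) * (a + b * X) +
        SI * (9 * (1 + Real.log X) ^ 3 * X ^ (2 * κ)) * (a + b * X) := by gcongr
    _ = _ := by ring

end Pool.Agent.H23.GLB
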