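import Pool.Agent.H23.GLB.Win
import Pool.Agent.H23.GLB.Ser
import Pool.Agent.H32.GLB.AF
import Pool.Agent.H64.GLB.BK
import Pool.Agent.H23.LC.Targets2

/-!
# The mean value: preparations
-/

set_option autoImplicit false

open NumberField NumberField.InfinitePlace NumberField.Units
  NumberField.Units.dirichletUnitTheorem MeasureTheory Set Filter Complex
open scoped nonZeroDivisors ENNReal

namespace Pool.Agent.H23.GLB

open Pool.Agent.H25.HK Pool.Agent.H23.LB Pool.Agent.H23.LC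
open Pool.Agent.H28.RC (Rep ft idl)

/-- the approximate functional equation at separated points -/
theorem win_AF (hAF : Pool.Agent.H32.GLB.U_AFc) : ∃ C₀ : ℝ, 0 ≤ C₀ ∧ ∀ κ : ℝ, 0 < κ → κ ≤ 1 →
    ∀ (L E G : ℂ → ℂ) (a a' : ℕ → ℂ → ℂ) (X : ℝ) (u : ℕ → ℝ), 0 < X → (∀ j, u j = κ ∨ u j = 1) →
    Differentiable ℂ E → (∀ s : ℂ, s ≠ 0 → s ≠ 1 → E s = s * (s - 1) * L s) →
    (∃ C A : ℝ, ∀ s : ℂ, |s.re| ≤ 3 → ‖E s‖ ≤ C * Real.exp (A * |s.im|)) →
    (∀ j, Differentiable ℂ (a j)) → (∀ j, Differentiable ℂ (a' j)) →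
    (∀ j, ∃ C : ℝ, ∀ s : ℂ, 1 / 2 ≤ s.re → ‖a j s‖ ≤ C ∧ ‖a' j s‖ ≤ C) →
    (∃ c : ℕ → ℝ, Summable c ∧ ∀ j, ∀ s : ℂ, s.re = 3 / 2 → ‖a j s‖ ≤ c j ∧ ‖a' j s‖ ≤ c j) →
    (∀ s : ℂ, s.re = 3 / 2 → L s = ∑' j, a j s) →
    (∀ s : ℂ, s.re = 3 / 2 → L (1 - s) = G s * ∑' j, a' j s) →
    (∀ s : ℂ, 0 < s.re → DifferentiableAt ℂ G s) →
    (∃ C A : ℝ, ∀ s : ℂ, 1 / 2 ≤ s.re → s.re ≤ 3 / 2 → ‖G s‖ ≤ C * Real.exp (A * |s.im|)) →
    ∀ (P : Finset ℝ) (T : ℝ), Sep P → 0 ≤ T → (∀ t ∈ P, |t| ≤ T) →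
    ∑ t ∈ P, ENNReal.ofReal (‖L (1 / 2 + t * I)‖ ^ 2) ≤ ENNReal.ofReal (C₀ * κ ^ (-2 : ℝ)) *
      ((∑' j : ℕ, ENNReal.ofReal ((1 + j) ^ 2 * X ^ (2 * u j)) *
        ∑' k : ℕ, ENNReal.ofReal (Real.exp (-(k : ℝ) ^ 2 / 4)) *
          ∫⁻ w in Icc (-wi T k) (wi T k), ENNReal.ofReal (‖a j (1 / 2 + u j + w * I)‖ ^ 2)) +
      ∑' j : ℕ, ENNReal.ofReal ((1 + j) ^ 2 * X ^ (-(2 * u j))) *
        ∑' k : ℕ, ENNReal.ofReal (Real.exp (-(k : ℝ) ^ 2 / 4)) *
          ∫⁻ w in Icc (-wi T k) (wi T k), ENNReal.ofReal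
            (‖G (1 / 2 + u j - w * I) * a' j (1 / 2 + u j - w * I)‖ ^ 2)) := by
  obtain ⟨C₀, hC₀⟩ := hAF
  refine ⟨|C₀| * GZ, mul_nonneg (abs_nonneg _) gz_nonneg, ?_⟩
  intro κ hκ hκ1 L E G a a' X u hX hu hE hEL hEb ha ha' hab hac hL hL' hG hGb P T hP hT hPT
  have hu0 : ∀ j, 0 < u j := fun j => by
    rcases hu j with h | h
    · rw [h]; exact hκ
    · rw [h]; exact one_pos
  have hmain := fun t : ℝ => hC₀ κ hκ hκ1 L E G a a' X t u u hX hu hu hE hEL hEb ha ha' hab hac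
    hL hL' hG hGb
  set F : ℕ → ℝ → ℝ≥0∞ := fun j w => ENNReal.ofReal (‖a j (1 / 2 + u j + w * I)‖ ^ 2) with hF
  set F' : ℕ → ℝ → ℝ≥0∞ := fun j w => ENNReal.ofReal
    (‖G (1 / 2 + u j - w * I) * a' j (1 / 2 + u j - w * I)‖ ^ 2) with hF'
  have hFm : ∀ j, Measurable (F j) := by
    intro j
    have : Continuous fun w : ℝ => a j (1 / 2 + u j + w * I) :=
      (ha j).continuous.comp (by fun_prop)
    exact ENNReal.measurable_ofReal.comp (this.norm.pow 2).measurable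
  have hFm' : ∀ j, Measurable (F' j) := by
    intro j
    have h1 : Continuous fun w : ℝ => a' j (1 / 2 + u j - w * I) :=
      (ha' j).continuous.comp (by fun_prop)
    have h2 : Continuous fun w : ℝ => G (1 / 2 + u j - w * I) := by
      rw [continuous_iff_continuousAt]
      intro w
      have hre : (0 : ℝ) < (1 / 2 + u j - w * I : ℂ).re := by
        simp
        have := hu0 j
        positivity
      exact ContinuousAt.comp (f := fun w : ℝ => (1 / 2 + u j - w * I : ℂ))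
        (hG _ hre).continuousAt (by fun_prop)
    exact ENNReal.measurable_ofReal.comp ((h2.mul h1).norm.pow 2).measurable
  have e1 : ∀ (t : ℝ) (j : ℕ), ∫⁻ v : ℝ, ENNReal.ofReal (‖a j (1 / 2 + u j + (t + v) * I)‖ ^ 2 *
      Real.exp (-v ^ 2 / 2)) = ∫⁻ v : ℝ, F j (t + v) * ENNReal.ofReal (Real.exp (-v ^ 2 / 2)) := by
    intro t j
    refine lintegral_congr fun v => ?_
    rw [ENNReal.ofReal_mul (by positivity)]
    simp only [hF]
    push_cast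
    rfl
  have e2 : ∀ (t : ℝ) (j : ℕ), ∫⁻ v : ℝ, ENNReal.ofReal
      (‖G (1 / 2 + u j - (t + v) * I) * a' j (1 / 2 + u j - (t + v) * I)‖ ^ 2 *
        Real.exp (-v ^ 2 / 2)) =
      ∫⁻ v : ℝ, F' j (t + v) * ENNReal.ofReal (Real.exp (-v ^ 2 / 2)) := by
    intro t j
    refine lintegral_congr fun v => ?_
    rw [ENNReal.ofReal_mul (by positivity)]
    simp only [hF']
    push_cast
    rfl
  simp only [e1, e2] at hmain
  have hw := fun j => win hP hT hPT (F j) (hFm j)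
  have hw' := fun j => win hP hT hPT (F' j) (hFm' j)
  calc ∑ t ∈ P, ENNReal.ofReal (‖L (1 / 2 + t * I)‖ ^ 2)
      ≤ ∑ t ∈ P, ENNReal.ofReal (C₀ * κ ^ (-2 : ℝ)) *
        ((∑' j : ℕ, ENNReal.ofReal ((1 + j) ^ 2 * X ^ (2 * u j)) *
          ∫⁻ v : ℝ, F j (t + v) * ENNReal.ofReal (Real.exp (-v ^ 2 / 2))) +
        ∑' j : ℕ, ENNReal.ofReal ((1 + j) ^ 2 * X ^ (-(2 * u j))) *
          ∫⁻ v : ℝ, F' j (t + v) * ENNReal.ofReal (Real.exp (-v ^ 2 / 2))) :=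
        Finset.sum_le_sum fun t _ => hmain t
    _ = ENNReal.ofReal (C₀ * κ ^ (-2 : ℝ)) *
        ((∑' j : ℕ, ENNReal.ofReal ((1 + j) ^ 2 * X ^ (2 * u j)) *
          ∑ t ∈ P, ∫⁻ v : ℝ, F j (t + v) * ENNReal.ofReal (Real.exp (-v ^ 2 / 2))) +
        ∑' j : ℕ, ENNReal.ofReal ((1 + j) ^ 2 * X ^ (-(2 * u j))) *
          ∑ t ∈ P, ∫⁻ v : ℝ, F' j (t + v) * ENNReal.ofReal (Real.exp (-v ^ 2 / 2))) := by
        rw [← Finset.mul_sum, Finset.sum_add_distrib]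
        congr 2
        · rw [← Summable.tsum_finsetSum (fun _ _ => ENNReal.summable)]
          refine tsum_congr fun j => ?_
          rw [Finset.mul_sum]
        · rw [← Summable.tsum_finsetSum (fun _ _ => ENNReal.summable)]
          refine tsum_congr fun j => ?_
          rw [Finset.mul_sum]
    _ ≤ ENNReal.ofReal (|C₀| * κ ^ (-2 : ℝ)) *
        ((∑' j : ℕ, ENNReal.ofReal ((1 + j) ^ 2 * X ^ (2 * u j)) *
          (ENNReal.ofReal GZ * ∑' k : ℕ, ENNReal.ofReal (Real.exp (-(k : ℝ) ^ 2 / 4)) *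
            ∫⁻ w in Icc (-wi T k) (wi T k), F j w)) +
        ∑' j : ℕ, ENNReal.ofReal ((1 + j) ^ 2 * X ^ (-(2 * u j))) *
          (ENNReal.ofReal GZ * ∑' k : ℕ, ENNReal.ofReal (Real.exp (-(k : ℝ) ^ 2 / 4)) *
            ∫⁻ w in Icc (-wi T k) (wi T k), F' j w)) := by
        gcongr with j j
        · exact le_abs_self _
        · exact hw j
        · exact hw' j
    _ = _ := by
        have e3 : ∀ (c : ℕ → ℝ≥0∞) (g : ℕ → ℝ≥0∞), ∑' j, c j * (ENNReal.ofReal GZ * g j) =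
            ENNReal.ofReal GZ * ∑' j, c j * g j := by
          intro c g
          rw [← ENNReal.tsum_mul_left]
          refine tsum_congr fun j => ?_
          rw [mul_left_comm]
        rw [e3, e3, ← mul_add, ← mul_assoc, ← ENNReal.ofReal_mul (by positivity)]
        congr 2
        ring

section NF

variable {K : Type} [Field K] [NumberField K]

/-- the pieces as sums with weights -/
theorem blk_bs (j : ℕ) (σ : ℝ) (hσ : 0 ≤ σ) :
    ∃ b : Ideal (𝓞 K) → ℂ, (∀ J, ‖b J‖ ≤ (2 : ℝ) ^ (-(j * σ))) ∧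
      ∀ (a : Ideal (𝓞 K) → ℂ) (t : ℝ), blk a j (σ + t * I) = bs a b (2 ^ j) t := by
  classical
  refine ⟨fun J => if 2 ^ j ≤ Ideal.absNorm J then (Ideal.absNorm J : ℂ) ^ (-(σ : ℂ)) else 0,
    fun J => ?_, fun a t => ?_⟩
  · dsimp only
    split_ifs with h
    · have h0 : 0 < Ideal.absNorm J := lt_of_lt_of_le (by positivity) h
      rw [Complex.norm_natCast_cpow_of_pos h0]
      simp only [neg_re, ofReal_re]
      have h1 : (2 : ℝ) ^ j ≤ Ideal.absNorm J := by exact_mod_cast h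
      calc (Ideal.absNorm J : ℝ) ^ (-σ) ≤ ((2 : ℝ) ^ j) ^ (-σ) :=
            Real.rpow_le_rpow_of_nonpos (by positivity) h1 (by linarith)
        _ = (2 : ℝ) ^ (-(j * σ)) := by
            rw [← Real.rpow_natCast, ← Real.rpow_mul (by norm_num)]
            congr 1
            ring
    · rw [norm_zero]
      positivity
  · unfold blk bs
    refine tsum_congr fun J => ?_
    have hJ : Ideal.absNorm J.1 ≠ 0 := by
      rw [Ne, Ideal.absNorm_eq_zero_iff]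
      exact J.2
    have hJc : (Ideal.absNorm J.1 : ℂ) ≠ 0 := by exact_mod_cast hJ
    have e1 : ((2 : ℝ) ^ j ≤ (Ideal.absNorm J.1 : ℝ)) ↔ 2 ^ j ≤ Ideal.absNorm J.1 := by
      exact_mod_cast Iff.rfl
    have e2 : ((Ideal.absNorm J.1 : ℝ) < 2 * 2 ^ j) ↔ Ideal.absNorm J.1 < 2 ^ (j + 1) := by
      rw [pow_succ]
      constructor
      · intro h
        have : (Ideal.absNorm J.1 : ℝ) < ((2 ^ j * 2 : ℕ) : ℝ) := by
          push_cast
          linarith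
        exact_mod_cast this
      · intro h
        have : (Ideal.absNorm J.1 : ℝ) < ((2 ^ j * 2 : ℕ) : ℝ) := by exact_mod_cast h
        push_cast at this
        linarith
    simp only [e1, e2]
    by_cases h : 2 ^ j ≤ Ideal.absNorm J.1 ∧ Ideal.absNorm J.1 < 2 ^ (j + 1)
    · rw [if_pos h, if_pos h, if_pos h.1, neg_add, Complex.cpow_add _ _ hJc]
      ring
    · rw [if_neg h, if_neg h]

/-- the elementary inequality for the windows -/
theorem mvb {n : ℕ} {C κ B d N T Tk H k β Y : ℝ} (hC : 0 ≤ C) (hκ : 0 < κ) (hκ1 : κ ≤ 1)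
    (hd : 1 ≤ d) (hN : 1 ≤ N) (hT : 1 ≤ T) (hTk : T ≤ Tk) (hTk' : Tk ≤ (k + 2) * T)
    (hk : 0 ≤ k) (hH : 0 ≤ H) (hY : 0 < Y) :
    C * κ ^ (-B) * (d * (N * Tk ^ n)) ^ κ * (Tk ^ n * H) *
      (β ^ 2 * (Y * (1 + Y / (Real.sqrt d * (N * Tk ^ n))))) ≤
    C * κ ^ (-B) * (d * (N * T ^ n)) ^ κ * H * (k + 2) ^ (2 * n) *
      ((β ^ 2 * Y) * (T ^ n + Y / (Real.sqrt d * N))) := by
  have hT0 : 0 < T := by linarith
  have hTk0 : 0 < Tk := by linarith
  have hk2 : 1 ≤ k + 2 := by linarith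
  have hsd : 0 < Real.sqrt d := Real.sqrt_pos.2 (by linarith)
  have h1 : (d * (N * Tk ^ n)) ^ κ ≤ (d * (N * T ^ n)) ^ κ * (k + 2) ^ n := by
    calc (d * (N * Tk ^ n)) ^ κ ≤ (d * (N * T ^ n) * (k + 2) ^ n) ^ κ := by
          apply Real.rpow_le_rpow (by positivity) _ hκ.le
          have : Tk ^ n ≤ (k + 2) ^ n * T ^ n := by
            rw [← mul_pow]
            exact pow_le_pow_left₀ hTk0.le hTk' n
          calc d * (N * Tk ^ n) ≤ d * (N * ((k + 2) ^ n * T ^ n)) := by gcongr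
            _ = _ := by ring
      _ = (d * (N * T ^ n)) ^ κ * ((k + 2) ^ n) ^ κ := by
          rw [Real.mul_rpow (by positivity) (by positivity)]
      _ ≤ (d * (N * T ^ n)) ^ κ * (k + 2) ^ n := by
          gcongr
          calc ((k + 2) ^ n) ^ κ ≤ ((k + 2) ^ n) ^ (1 : ℝ) :=
                Real.rpow_le_rpow_of_exponent_le (one_le_pow₀ hk2) hκ1
            _ = _ := Real.rpow_one _
  have h2 : Tk ^ n * (1 + Y / (Real.sqrt d * (N * Tk ^ n))) ≤
      (k + 2) ^ n * (T ^ n + Y / (Real.sqrt d * N)) := by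
    have e : Tk ^ n * (1 + Y / (Real.sqrt d * (N * Tk ^ n))) = Tk ^ n + Y / (Real.sqrt d * N) := by
      field_simp
    rw [e, mul_add]
    have h3 : Tk ^ n ≤ (k + 2) ^ n * T ^ n := by
      rw [← mul_pow]
      exact pow_le_pow_left₀ hTk0.le hTk' n
    have h4 : Y / (Real.sqrt d * N) ≤ (k + 2) ^ n * (Y / (Real.sqrt d * N)) :=
      le_mul_of_one_le_left (by positivity) (one_le_pow₀ hk2)
    linarith
  calc C * κ ^ (-B) * (d * (N * Tk ^ n)) ^ κ * (Tk ^ n * H) *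
      (β ^ 2 * (Y * (1 + Y / (Real.sqrt d * (N * Tk ^ n)))))
      = C * κ ^ (-B) * (d * (N * Tk ^ n)) ^ κ * H * (β ^ 2 * Y) *
        (Tk ^ n * (1 + Y / (Real.sqrt d * (N * Tk ^ n)))) := by ring
    _ ≤ C * κ ^ (-B) * ((d * (N * T ^ n)) ^ κ * (k + 2) ^ n) * H * (β ^ 2 * Y) *
        ((k + 2) ^ n * (T ^ n + Y / (Real.sqrt d * N))) := by gcongr
    _ = _ := by
        rw [two_mul, pow_add]
        ring

end NF

end Pool.Agent.H23.GLB
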