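import Pool.Agent.H23.GLB.Fin0
import Pool.Agent.H23.GLA.ASM

/-!
# The mean value at separated points
-/

set_option autoImplicit false

open NumberField NumberField.InfinitePlace NumberField.Units
  NumberField.Units.dirichletUnitTheorem MeasureTheory Set Filter Complex
open scoped nonZeroDivisors ENNReal

namespace Pool.Agent.H23.GLB

open Pool.Agent.H25.HK Pool.Agent.H23.LB Pool.Agent.H23.LC
open Pool.Agent.H28.RC (Rep ft idl)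

lemma qk {Q κ : ℝ} (hQ : 1 ≤ Q) (hκ : κ = (1 + Real.log Q)⁻¹) : Q ^ κ ≤ Real.exp 1 := by
  have hl : 0 ≤ Real.log Q := Real.log_nonneg hQ
  rw [Real.rpow_def_of_pos (by linarith), hκ]
  apply Real.exp_le_exp.2
  rw [← div_eq_mul_inv, div_le_one (by linarith)]
  linarith

lemma wi_ge {T : ℝ} (k : ℕ) : T ≤ wi T k := by
  unfold wi
  have : (0 : ℝ) ≤ k := Nat.cast_nonneg _
  linarith

lemma wi_le {T : ℝ} (hT : 1 ≤ T) (k : ℕ) : wi T k ≤ (k + 2) * T := by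
  unfold wi
  have : (0 : ℝ) ≤ k := Nat.cast_nonneg _
  nlinarith

lemma icc_neg (W : ℝ) (g : ℝ → ℝ≥0∞) :
    ∫⁻ w in Icc (-W) W, g (-w) = ∫⁻ w in Icc (-W) W, g w := by
  rw [← lintegral_indicator measurableSet_Icc, ← lintegral_indicator measurableSet_Icc,
    ← lintegral_neg_eq_self ((Icc (-W) W).indicator g)]
  refine lintegral_congr fun w => ?_
  by_cases h : w ∈ Icc (-W) W
  · have h' : -w ∈ Icc (-W) W := ⟨by linarith [h.2], by linarith [h.1]⟩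
    rw [Set.indicator_of_mem h, Set.indicator_of_mem h']
  · have h' : -w ∉ Icc (-W) W := fun hh => h ⟨by linarith [hh.2], by linarith [hh.1]⟩
    rw [Set.indicator_of_notMem h, Set.indicator_of_notMem h']

section NF

variable {K : Type} [Field K] [NumberField K] {f : Ideal (𝓞 K)}

/-- the number `h R φ(f)` -/
noncomputable def hrp (K : Type) [Field K] [NumberField K] (f : Ideal (𝓞 K)) : ℝ :=
  (classNumber K : ℝ) * regulator K * Phi K f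

lemma hrp_nonneg : 0 ≤ hrp K f := by
  unfold hrp
  have := regulator_pos K
  positivity

lemma psi_le (χ : HG K f) (J : Ideal (𝓞 K)) : ‖χ.ψ J‖ ≤ 1 := by
  by_cases h0 : J = ⊥
  · rw [h0, χ.map_bot, norm_zero]; exact zero_le_one
  by_cases h1 : J ⊔ f = ⊤
  · exact (χ.norm_one J h0 h1).le
  · rw [χ.eq_zero J h1, norm_zero]; exact zero_le_one

lemma gf_norm (hf : f ≠ ⊥) {n : ℕ} {Cg : ℝ} (hn : Module.finrank ℚ K = n)
    (hGR : ∀ (K : Type) [Field K] [NumberField K],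
    Module.finrank ℚ K = n → ∀ (k : InfinitePlace K → ℤ) (ν : InfinitePlace K → ℝ) (T : ℝ),
    (∀ v : InfinitePlace K, v.IsReal → k v = 0 ∨ k v = 1) → 1 ≤ T →
    (∀ v, |ν v| ≤ T ∧ |(k v : ℝ)| ≤ T) → ∀ s : ℂ, 1 / 2 ≤ s.re → s.re ≤ 3 / 2 →
    ‖gG K k (-ν) s * (gG K k ν (1 - s))⁻¹‖ ≤
      Cg * (T + |s.im|) ^ ((n : ℝ) * (s.re - 1 / 2)))
    (χ : HG K f) {T : ℝ} (hT : 1 ≤ T) (hχ : χ ∈ box K f T) (s : ℂ) (h1 : 1 / 2 ≤ s.re)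
    (h2 : s.re ≤ 3 / 2) :
    ‖gf χ s‖ ≤ Cg * (|(discr K : ℝ)| * (Nf K f * (T + |s.im|) ^ n)) ^ (s.re - 1 / 2) := by
  have hd := Pool.Agent.H23.GLA.disc_ge (K := K)
  have hN := Pool.Agent.H23.GLA.Nf_pos hf
  have hTs : 0 < T + |s.im| := by have := abs_nonneg s.im; linarith
  have hdN : 0 < |(discr K : ℝ)| * Nf K f := by positivity
  unfold gf
  rw [norm_mul, norm_mul, norm_pow, norm_neg, norm_I, one_pow, one_mul,
    Complex.norm_cpow_eq_rpow_re_of_pos hdN]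
  have e : (s - 1 / 2 : ℂ).re = s.re - 1 / 2 := by simp
  rw [e]
  have h3 := hGR K hn χ.k χ.ν T χ.real_k hT hχ s h1 h2
  have e2 : (|(discr K : ℝ)| * (Nf K f * (T + |s.im|) ^ n)) ^ (s.re - 1 / 2) =
      (|(discr K : ℝ)| * Nf K f) ^ (s.re - 1 / 2) *
        (T + |s.im|) ^ ((n : ℝ) * (s.re - 1 / 2)) := by
    rw [← mul_assoc, Real.mul_rpow hdN.le (by positivity), Real.rpow_mul hTs.le,
      Real.rpow_natCast]
  rw [e2, mul_left_comm]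
  gcongr

lemma gf_diff (hGE : U_GE) (hf : f ≠ ⊥) (χ : HG K f) (s : ℂ) (hs : 0 < s.re) :
    DifferentiableAt ℂ (gf χ) s := by
  have hd := Pool.Agent.H23.GLA.disc_ge (K := K)
  have hN := Pool.Agent.H23.GLA.Nf_pos hf
  have hdN : 0 < |(discr K : ℝ)| * Nf K f := by positivity
  obtain ⟨g1, -, -⟩ := hGE K χ.k χ.ν χ.real_k
  obtain ⟨-, g2, -⟩ := hGE K χ.k (-χ.ν) χ.real_k
  have hdc : (((|(discr K : ℝ)| * Nf K f : ℝ) : ℂ)) ≠ 0 := by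
    rw [Ne, Complex.ofReal_eq_zero]
    exact hdN.ne'
  have h1 : DifferentiableAt ℂ (fun s : ℂ =>
      (((|(discr K : ℝ)| * Nf K f : ℝ) : ℂ)) ^ (s - 1 / 2)) s :=
    DifferentiableAt.const_cpow (by fun_prop) (Or.inl hdc)
  have h2 : DifferentiableAt ℂ (gG K χ.k (-χ.ν)) s := (g2 s hs).2
  have h3 : DifferentiableAt ℂ (fun s : ℂ => (gG K χ.k χ.ν (1 - s))⁻¹) s :=
    (g1.comp (differentiable_id.const_sub 1)).differentiableAt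
  exact ((h1.const_mul _).mul (h2.mul h3))

lemma gf_growth (hf : f ≠ ⊥) {n : ℕ} {Cg : ℝ} (hn : Module.finrank ℚ K = n) (hCg : 0 ≤ Cg)
    (hGR : ∀ (K : Type) [Field K] [NumberField K],
    Module.finrank ℚ K = n → ∀ (k : InfinitePlace K → ℤ) (ν : InfinitePlace K → ℝ) (T : ℝ),
    (∀ v : InfinitePlace K, v.IsReal → k v = 0 ∨ k v = 1) → 1 ≤ T →
    (∀ v, |ν v| ≤ T ∧ |(k v : ℝ)| ≤ T) → ∀ s : ℂ, 1 / 2 ≤ s.re → s.re ≤ 3 / 2 →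
    ‖gG K k (-ν) s * (gG K k ν (1 - s))⁻¹‖ ≤
      Cg * (T + |s.im|) ^ ((n : ℝ) * (s.re - 1 / 2)))
    (χ : HG K f) {T : ℝ} (hT : 1 ≤ T) (hχ : χ ∈ box K f T) :
    ∃ C A : ℝ, ∀ s : ℂ, 1 / 2 ≤ s.re → s.re ≤ 3 / 2 → ‖gf χ s‖ ≤ C * Real.exp (A * |s.im|) := by
  have hd := Pool.Agent.H23.GLA.disc_ge (K := K)
  have hN := Pool.Agent.H23.GLA.Nf_pos hf
  refine ⟨Cg * (|(discr K : ℝ)| * (Nf K f * (T * 2) ^ n)), n, fun s hs1 hs2 =>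
    (gf_norm hf hn hGR χ hT hχ s hs1 hs2).trans ?_⟩
  have ha : 0 ≤ |s.im| := abs_nonneg _
  have h5 : T + |s.im| ≤ (T * 2) * Real.exp |s.im| := by
    have := Real.add_one_le_exp |s.im|
    nlinarith
  have h6 : 1 ≤ |(discr K : ℝ)| * (Nf K f * (T + |s.im|) ^ n) :=
    one_le_mul_of_one_le_of_one_le hd
      (one_le_mul_of_one_le_of_one_le hN (one_le_pow₀ (by linarith)))
  calc Cg * (|(discr K : ℝ)| * (Nf K f * (T + |s.im|) ^ n)) ^ (s.re - 1 / 2)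
      ≤ Cg * (|(discr K : ℝ)| * (Nf K f * (T + |s.im|) ^ n)) ^ (1 : ℝ) := by
        gcongr
        linarith
    _ ≤ Cg * (|(discr K : ℝ)| * (Nf K f * ((T * 2) * Real.exp |s.im|) ^ n)) := by
        rw [Real.rpow_one]
        gcongr
    _ = Cg * (|(discr K : ℝ)| * (Nf K f * (T * 2) ^ n)) * Real.exp (n * |s.im|) := by
        rw [mul_pow, Real.exp_nat_mul]
        ring

/-- the approximate functional equation for a character -/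
lemma oneχ {C₀ : ℝ} (hAF : ∀ κ : ℝ, 0 < κ → κ ≤ 1 →
    ∀ (L E G : ℂ → ℂ) (a a' : ℕ → ℂ → ℂ) (X : ℝ) (u : ℕ → ℝ), 0 < X → (∀ j, u j = κ ∨ u j = 1) →
    Differentiable ℂ E → (∀ s : ℂ, s ≠ 0 → s ≠ 1 → E s = s * (s - 1) * L s) →
    (∃ C A : ℝ, ∀ s : ℂ, |s.re| ≤ 3 → ‖E s‖ ≤ C * Real.exp (A * |s.im|)) →
    (∀ j, Differentiable ℂ (a j)) → (∀ j, Differentiable ℂ (a' j)) →
    (∀ j, ∃ C : ℝ, ∀ s : ℂ, 1 / 2 ≤ s.re → ‖a j s‖ ≤ C ∧ ‖a' j s‖ ≤ C) →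
    (∃ c : ℕ → ℝ, Summable c ∧ ∀ j, ∀ s : ℂ, s.re = 3 / 2 → ‖a j s‖ ≤ c j ∧ ‖a' j s‖ ≤ c j) →
    (∀ s : ℂ, s.re = 3 / 2 → L s = ∑' j, a j s) →
    (∀ s : ℂ, s.re = 3 / 2 → L (1 - s) = G s * ∑' j, a' j s) →
    (∀ s : ℂ, 0 < s.re → DifferentiableAt ℂ G s) →
    (∃ C A : ℝ, ∀ s : ℂ, 1 / 2 ≤ s.re → s.re ≤ 3 / 2 → ‖G s‖ ≤ C * Real.exp (A * |s.im|)) →
    ∀ (P : Finset ℝ) (T : ℝ), Sep P → 0 ≤ T → (∀ t ∈ P, |t| ≤ T) →
    ∑ t ∈ P, ENNReal.ofReal (‖L (1 / 2 + t * I)‖ ^ 2) ≤ ENNReal.ofReal (C₀ * κ ^ (-2 : ℝ)) *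
      ((∑' j : ℕ, ENNReal.ofReal ((1 + j) ^ 2 * X ^ (2 * u j)) *
        ∑' k : ℕ, ENNReal.ofReal (Real.exp (-(k : ℝ) ^ 2 / 4)) *
          ∫⁻ w in Icc (-wi T k) (wi T k), ENNReal.ofReal (‖a j (1 / 2 + u j + w * I)‖ ^ 2)) +
      ∑' j : ℕ, ENNReal.ofReal ((1 + j) ^ 2 * X ^ (-(2 * u j))) *
        ∑' k : ℕ, ENNReal.ofReal (Real.exp (-(k : ℝ) ^ 2 / 4)) *
          ∫⁻ w in Icc (-wi T k) (wi T k), ENNReal.ofReal
            (‖G (1 / 2 + u j - w * I) * a' j (1 / 2 + u j - w * I)‖ ^ 2)))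
    (hBK : U_BK) (hGE : U_GE) (hDC : U_DC) (hf : f ≠ ⊥) (D : Sys K f) (χ : HG K f) (L : ℂ → ℂ)
    (hL : IsL D χ L)
    (hgr : ∃ C A : ℝ, ∀ s : ℂ, 1 / 2 ≤ s.re → s.re ≤ 3 / 2 →
      ‖gf χ s‖ ≤ C * Real.exp (A * |s.im|))
    {κ X : ℝ} {u : ℕ → ℝ} (hκ : 0 < κ) (hκ1 : κ ≤ 1) (hX0 : 0 < X) (hu : ∀ j, u j = κ ∨ u j = 1)
    (P : Finset ℝ) {T : ℝ} (hT : 0 ≤ T) (hP : Sep P ∧ ∀ t ∈ P, |t| ≤ T) :
    ∑ t ∈ P, ENNReal.ofReal (‖L (1 / 2 + t * I)‖ ^ 2) ≤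
      ENNReal.ofReal (C₀ * κ ^ (-2 : ℝ)) *
      ((∑' j : ℕ, ENNReal.ofReal ((1 + j) ^ 2 * X ^ (2 * u j)) *
        ∑' k : ℕ, ENNReal.ofReal (Real.exp (-(k : ℝ) ^ 2 / 4)) *
          ∫⁻ w in Icc (-wi T k) (wi T k),
            ENNReal.ofReal (‖blk χ.ψ j (1 / 2 + u j + w * I)‖ ^ 2)) +
      ∑' j : ℕ, ENNReal.ofReal ((1 + j) ^ 2 * X ^ (-(2 * u j))) *
        ∑' k : ℕ, ENNReal.ofReal (Real.exp (-(k : ℝ) ^ 2 / 4)) *
          ∫⁻ w in Icc (-wi T k) (wi T k), ENNReal.ofReal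
            (‖gf χ (1 / 2 + u j - w * I) * blk (cd D χ) j (1 / 2 + u j - w * I)‖ ^ 2)) := by
  obtain ⟨hL1, hL2, ⟨E, hE1, hE2, hE3⟩, hL4⟩ := hL
  obtain ⟨k1, k2, ⟨c1, hc1, k3⟩, k4, -⟩ := hBK K χ.ψ 1 (psi_le χ)
  obtain ⟨l1, l2, ⟨c2, hc2, l3⟩, l4, -⟩ := hBK K (cd D χ) (Real.sqrt (Nf K f))
    (hDC K f hf D χ).1
  refine hAF κ hκ hκ1 L E (gf χ) (fun j => blk χ.ψ j) (fun j => blk (cd D χ) j) X u hX0 hu
    hE1 hE2 (hE3 3) k1 l1 ?_ ?_ ?_ ?_ (gf_diff hGE hf χ) hgr P T hP.1 hT hP.2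
  · intro j
    obtain ⟨A1, hA1⟩ := k2 j
    obtain ⟨A2, hA2⟩ := l2 j
    exact ⟨max A1 A2, fun s hs => ⟨(hA1 s hs).trans (le_max_left _ _),
      (hA2 s hs).trans (le_max_right _ _)⟩⟩
  · refine ⟨fun j => |c1 j| + |c2 j|, hc1.abs.add hc2.abs, fun j s hs => ⟨?_, ?_⟩⟩
    · have := k3 j s hs
      have := le_abs_self (c1 j)
      have := abs_nonneg (c2 j)
      linarith
    · have := l3 j s hs
      have := le_abs_self (c2 j)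
      have := abs_nonneg (c1 j)
      linarith
  · intro s hs
    have hs1 : 1 < s.re := by rw [hs]; norm_num
    rw [hL1 s hs1, k4 s hs1]
    rfl
  · intro s hs
    have hs1 : 1 < s.re := by rw [hs]; norm_num
    rw [hL4 s hs1, l4 s hs1]
    rfl

end NF

end Pool.Agent.H23.GLB
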