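import Pool.Agent.H23.GLB.Chain
import Pool.Agent.H23.GLB.Avg

/-!
# The theorem
-/

set_option autoImplicit false

open NumberField NumberField.InfinitePlace NumberField.Units
  NumberField.Units.dirichletUnitTheorem MeasureTheory Set Filter Complex
open scoped nonZeroDivisors ENNReal

namespace Pool.Agent.H23.GLB

open Pool.Agent.H25.HK Pool.Agent.H23.LB Pool.Agent.H23.LC Pool.Agent.H23.GLA

section NF

variable {K : Type} [Field K] [NumberField K] {f : Ideal (𝓞 K)}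

lemma cont_L {L : ℂ → ℂ} (h : ∀ s : ℂ, s ≠ 0 → s ≠ 1 → DifferentiableAt ℂ L s) :
    Continuous fun t : ℝ => L (1 / 2 + t * I) := by
  rw [continuous_iff_continuousAt]
  intro t
  have h0 : (1 / 2 + t * I : ℂ) ≠ 0 := by
    intro hh
    have := congrArg Complex.re hh
    simp at this
  have h1 : (1 / 2 + t * I : ℂ) ≠ 1 := by
    intro hh
    have := congrArg Complex.re hh
    simp at this
  exact ContinuousAt.comp (f := fun t : ℝ => (1 / 2 + t * I : ℂ)) (h _ h0 h1).continuousAt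
    (by fun_prop)

lemma lg_le {m : ℕ} (hm : 1 ≤ m) {d N T : ℝ} (hd : 1 ≤ d) (hN : 1 ≤ N) (hT : 1 ≤ T) :
    0 ≤ Real.log (d * (N * T ^ m)) ∧ 1 ≤ Real.log (3 + d * N * T) ∧
      1 + Real.log (d * (N * T ^ m)) ≤ (m + 1) * Real.log (3 + d * N * T) := by
  have hdN : 1 ≤ d * N := one_le_mul_of_one_le_of_one_le hd hN
  have hdNT : 1 ≤ d * N * T := one_le_mul_of_one_le_of_one_le hdN hT
  have hQ : 1 ≤ d * (N * T ^ m) :=
    one_le_mul_of_one_le_of_one_le hd (one_le_mul_of_one_le_of_one_le hN (one_le_pow₀ hT))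
  have h1 : 1 ≤ Real.log (3 + d * N * T) := by
    rw [Real.le_log_iff_exp_le (by linarith)]
    have := Real.exp_one_lt_d9
    linarith
  have h2 : Real.log (d * (N * T ^ m)) ≤ m * Real.log (3 + d * N * T) := by
    rw [← Real.log_pow]
    apply Real.log_le_log (by linarith)
    calc d * (N * T ^ m) = (d * N) * T ^ m := by ring
      _ ≤ (d * N) ^ m * T ^ m := by
          gcongr
          exact le_self_pow₀ hdN (by omega)
      _ = (d * N * T) ^ m := by rw [← mul_pow]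
      _ ≤ (3 + d * N * T) ^ m := by
          gcongr
          linarith
  refine ⟨Real.log_nonneg hQ, h1, ?_⟩
  linarith

end NF

/-- the theorem -/
theorem final (m : ℕ) (hm : 1 ≤ m) :
    ∃ C B c : ℝ, 0 < c ∧ ∀ (K : Type) [Field K] [NumberField K],
      Module.finrank ℚ K = m → ∀ f : Ideal (𝓞 K), f ≠ ⊥ →
      ∃ L : HG K f → ℂ → ℂ,
        (∀ χ : HG K f, (∀ s : ℂ, 1 < s.re → L χ s = χ.series s) ∧
          (∀ s : ℂ, s ≠ 0 → s ≠ 1 → DifferentiableAt ℂ (L χ) s) ∧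
          ((∃ I : Ideal (𝓞 K), χ.ψ I ≠ 0 ∧ χ.ψ I ≠ 1) → Differentiable ℂ (L χ))) ∧
        ∀ T : ℝ, 1 ≤ T →
          (box K f T).Finite ∧
          c * (T ^ (m - 1) * (classNumber K * regulator K * Phi K f)) ≤ (box K f T).ncard ∧
          (∀ P : HG K f → Finset ℝ,
            (∀ χ, ∀ t ∈ P χ, |t| ≤ T ∧ ∀ t' ∈ P χ, t ≠ t' → 1 ≤ |t - t'|) →
            ∑ᶠ χ ∈ box K f T, ∑ t ∈ P χ, ‖L χ (1 / 2 + t * I)‖ ^ 2 ≤
              C * Real.log (3 + |(discr K : ℝ)| * Ideal.absNorm f * T) ^ B *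
                (T ^ m * (classNumber K * regulator K * Phi K f))) ∧
          ∑ᶠ χ ∈ box K f T, ∫ t in (-T)..T, ‖L χ (1 / 2 + t * I)‖ ^ 2 ≤
            C * Real.log (3 + |(discr K : ℝ)| * Ideal.absNorm f * T) ^ B *
              (T ^ m * (classNumber K * regulator K * Phi K f)) ∧
          ∀ V : ℝ, 0 < V →
            ({χ ∈ box K f T | ∃ t : ℝ, |t| ≤ T ∧ V < ‖L χ (1 / 2 + t * I)‖}.ncard : ℝ) ≤
              C * Real.log (3 + |(discr K : ℝ)| * Ideal.absNorm f * T) ^ B *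
                (T * (box K f T).ncard) / V ^ 2 ∧
            ∑ᶠ χ ∈ box K f T, (volume {t : ℝ | |t| ≤ T ∧ V < ‖L χ (1 / 2 + t * I)‖}).toReal ≤
              C * Real.log (3 + |(discr K : ℝ)| * Ideal.absNorm f * T) ^ B *
                (T * (box K f T).ncard) / V ^ 2 := by
  obtain ⟨C₁, B, hC₁, hB, hcore⟩ :=
    core Pool.Agent.H32.GLB.pf_AFc g_BK g_MV g_MD g_GR g_GE g_DC m hm
  obtain ⟨c₀, hc₀, hcb⟩ := g_CB m hm
  set C₂ : ℝ := C₁ * ((m : ℝ) + 1) ^ B with hC₂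
  have hC₂0 : 0 ≤ C₂ := by positivity
  refine ⟨max C₂ (C₂ / c₀), B, c₀, hc₀, ?_⟩
  intro K _ _ hK f hf
  classical
  obtain ⟨D⟩ := c_SY K f hf
  choose L hL hLd using fun χ : HG K f => g_FK K f hf D χ
  refine ⟨L, fun χ => ⟨(hL χ).1, (hL χ).2.1, hLd χ⟩, ?_⟩
  intro T hT
  have hfin := g_FG K f T hf hT
  have hd := Pool.Agent.H23.GLA.disc_ge (K := K)
  have hN := Pool.Agent.H23.GLA.Nf_pos hf
  have hNf : Nf K f = (Ideal.absNorm f : ℝ) := rfl
  obtain ⟨hl0, hl1, hl2⟩ := lg_le hm hd hN hT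
  rw [← hNf]
  have hH0 : 0 ≤ hrp K f := hrp_nonneg
  have hHe : (classNumber K : ℝ) * regulator K * Phi K f = hrp K f := rfl
  rw [hHe]
  set H : ℝ := hrp K f with hH
  set ℓ : ℝ := Real.log (3 + |(discr K : ℝ)| * Nf K f * T) with hℓ
  have hℓ0 : 0 < ℓ := by linarith
  have hT0 : 0 < T := by linarith
  set S : Finset (HG K f) := hfin.toFinset with hS
  have hSm : ∀ χ, χ ∈ S ↔ χ ∈ box K f T := fun χ => hfin.mem_toFinset
  -- the number of the characters
  have hcard : c₀ * (T ^ (m - 1) * H) ≤ (box K f T).ncard := by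
    obtain ⟨Y, hY, hYc⟩ := hcb K hK f hf T hT
    refine hYc.trans ?_
    rw [Set.ncard_eq_toFinset_card _ hfin]
    exact_mod_cast Finset.card_le_card fun χ hχ => (hSm χ).2 (hY χ hχ)
  -- the bound
  set M : ℝ := C₂ * ℓ ^ B * (T ^ m * H) with hM
  have hM0 : 0 ≤ M := by positivity
  have hbd : C₁ * (1 + Real.log (|(discr K : ℝ)| * (Nf K f * T ^ m))) ^ B * (T ^ m * H) ≤ M := by
    have h1 : (1 + Real.log (|(discr K : ℝ)| * (Nf K f * T ^ m))) ^ B ≤
        ((m : ℝ) + 1) ^ B * ℓ ^ B := by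
      rw [← Real.mul_rpow (by positivity) hℓ0.le]
      exact Real.rpow_le_rpow (by linarith) hl2 hB
    calc C₁ * (1 + Real.log (|(discr K : ℝ)| * (Nf K f * T ^ m))) ^ B * (T ^ m * H)
        ≤ C₁ * (((m : ℝ) + 1) ^ B * ℓ ^ B) * (T ^ m * H) := by gcongr
      _ = M := by rw [hM, hC₂]; ring
  have hMC : M ≤ max C₂ (C₂ / c₀) * ℓ ^ B * (T ^ m * H) := by
    rw [hM]
    gcongr
    exact le_max_left _ _
  have hMC' : M ≤ max C₂ (C₂ / c₀) * ℓ ^ B * (T * (box K f T).ncard) := by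
    have e : T ^ m = T * T ^ (m - 1) := by
      rw [← pow_succ']
      congr 1
      omega
    have h2 : T ^ (m - 1) * H ≤ (box K f T).ncard / c₀ := by
      rw [le_div_iff₀ hc₀]
      linarith
    calc M = C₂ * ℓ ^ B * (T * (T ^ (m - 1) * H)) := by rw [hM, e]; ring
      _ ≤ C₂ * ℓ ^ B * (T * ((box K f T).ncard / c₀)) := by gcongr
      _ = (C₂ / c₀) * ℓ ^ B * (T * (box K f T).ncard) := by ring
      _ ≤ _ := by
          gcongr
          exact le_max_right _ _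
  -- separated points
  have hsep : ∀ P : HG K f → Finset ℝ,
      (∀ χ, ∀ t ∈ P χ, |t| ≤ T ∧ ∀ t' ∈ P χ, t ≠ t' → 1 ≤ |t - t'|) →
      ∑ χ ∈ S, ∑ t ∈ P χ, ENNReal.ofReal (‖L χ (1 / 2 + t * I)‖ ^ 2) ≤ ENNReal.ofReal M := by
    intro P hP
    refine (hcore K hK f hf D L hL T hT S (fun χ hχ => (hSm χ).1 hχ) P
      (fun χ _ => ⟨fun t ht t' ht' hne => (hP χ t ht).2 t' ht' hne,
        fun t ht => (hP χ t ht).1⟩)).trans (ENNReal.ofReal_le_ofReal hbd)
  have hsepr : ∀ P : HG K f → Finset ℝ,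
      (∀ χ, ∀ t ∈ P χ, |t| ≤ T ∧ ∀ t' ∈ P χ, t ≠ t' → 1 ≤ |t - t'|) →
      ∑ χ ∈ S, ∑ t ∈ P χ, ‖L χ (1 / 2 + t * I)‖ ^ 2 ≤ M := by
    intro P hP
    have h1 := hsep P hP
    have e : ∑ χ ∈ S, ∑ t ∈ P χ, ENNReal.ofReal (‖L χ (1 / 2 + t * I)‖ ^ 2) =
        ENNReal.ofReal (∑ χ ∈ S, ∑ t ∈ P χ, ‖L χ (1 / 2 + t * I)‖ ^ 2) := by
      rw [ENNReal.ofReal_sum_of_nonneg (fun χ _ => Finset.sum_nonneg fun t _ => by positivity)]
      refine Finset.sum_congr rfl fun χ _ => ?_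
      rw [ENNReal.ofReal_sum_of_nonneg (fun t _ => by positivity)]
    rw [e] at h1
    exact (ENNReal.ofReal_le_ofReal_iff hM0).1 h1
  -- the integral
  have hLc : ∀ χ : HG K f, Continuous fun t : ℝ => L χ (1 / 2 + t * I) := fun χ =>
    cont_L (hL χ).2.1
  have hmeas : ∀ χ : HG K f, Measurable fun t : ℝ =>
      ENNReal.ofReal (‖L χ (1 / 2 + t * I)‖ ^ 2) := fun χ =>
    ENNReal.measurable_ofReal.comp ((hLc χ).norm.pow 2).measurable
  have hint : ∑ χ ∈ S, ∫⁻ t in Icc (-T) T, ENNReal.ofReal (‖L χ (1 / 2 + t * I)‖ ^ 2) ≤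
      ENNReal.ofReal M := by
    rw [← lintegral_finsetSum _ (fun χ _ => hmeas χ)]
    refine avg T _ (Finset.measurable_sum _ fun χ _ => hmeas χ) _ ?_
    intro P hP hPT
    rw [Finset.sum_comm]
    exact hsep (fun _ => P) (fun χ t ht => ⟨hPT t ht, fun t' ht' hne => hP t ht t' ht' hne⟩)
  refine ⟨hfin, hcard, ?_, ?_, ?_⟩
  · intro P hP
    rw [finsum_mem_eq_finite_toFinset_sum _ hfin]
    exact (hsepr P hP).trans hMC
  · rw [finsum_mem_eq_finite_toFinset_sum _ hfin]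
    refine le_trans ?_ hMC
    have e : ∀ χ : HG K f, ∫ t in (-T)..T, ‖L χ (1 / 2 + t * I)‖ ^ 2 =
        (∫⁻ t in Icc (-T) T, ENNReal.ofReal (‖L χ (1 / 2 + t * I)‖ ^ 2)).toReal := by
      intro χ
      rw [intervalIntegral.integral_of_le (by linarith), ← integral_Icc_eq_integral_Ioc]
      have hc2 : Continuous fun t : ℝ => ‖L χ (1 / 2 + t * I)‖ ^ 2 := (hLc χ).norm.pow 2
      rw [integral_eq_lintegral_of_nonneg_ae (Filter.Eventually.of_forall fun t => by positivity)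
        hc2.aestronglyMeasurable]
    have hfi : ∀ χ ∈ S, ∫⁻ t in Icc (-T) T, ENNReal.ofReal (‖L χ (1 / 2 + t * I)‖ ^ 2) ≠ ⊤ := by
      intro χ hχ
      have := (Finset.single_le_sum (f := fun χ => ∫⁻ t in Icc (-T) T,
        ENNReal.ofReal (‖L χ (1 / 2 + t * I)‖ ^ 2)) (fun _ _ => zero_le) hχ).trans hint
      exact ne_top_of_le_ne_top ENNReal.ofReal_ne_top this
    simp_rw [e]
    rw [← ENNReal.toReal_sum hfi]
    exact ENNReal.toReal_le_of_le_ofReal hM0 hint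
  · intro V hV
    have hV2 : 0 < V ^ 2 := by positivity
    constructor
    · -- the number of the exceptional characters
      set A : Set (HG K f) := {χ ∈ box K f T | ∃ t : ℝ, |t| ≤ T ∧
        V < ‖L χ (1 / 2 + t * I)‖} with hA
      have hAf : A.Finite := hfin.subset fun χ hχ => hχ.1
      have hex : ∀ χ : HG K f, ∃ t : ℝ, χ ∈ A → |t| ≤ T ∧ V < ‖L χ (1 / 2 + t * I)‖ := by
        intro χ
        by_cases h : χ ∈ A
        · obtain ⟨t, ht⟩ := h.2
          exact ⟨t, fun _ => ht⟩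
        · exact ⟨0, fun hh => absurd hh h⟩
      choose τ hτ using hex
      have h1 := hsepr (fun χ => if χ ∈ A then {τ χ} else ∅) (by
        intro χ t ht
        by_cases h : χ ∈ A
        · rw [if_pos h, Finset.mem_singleton] at ht
          subst ht
          refine ⟨(hτ χ h).1, fun t' ht' hne => ?_⟩
          rw [if_pos h, Finset.mem_singleton] at ht'
          exact absurd ht'.symm hne
        · rw [if_neg h] at ht
          exact absurd ht (Finset.notMem_empty t))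
      have h2 : (A.ncard : ℝ) * V ^ 2 ≤
          ∑ χ ∈ S, ∑ t ∈ (if χ ∈ A then {τ χ} else ∅ : Finset ℝ),
            ‖L χ (1 / 2 + t * I)‖ ^ 2 := by
        calc (A.ncard : ℝ) * V ^ 2 = ∑ _χ ∈ hAf.toFinset, V ^ 2 := by
              rw [Finset.sum_const, nsmul_eq_mul, Set.ncard_eq_toFinset_card _ hAf]
          _ ≤ ∑ χ ∈ hAf.toFinset, ∑ t ∈ (if χ ∈ A then {τ χ} else ∅ : Finset ℝ),
              ‖L χ (1 / 2 + t * I)‖ ^ 2 := by
              refine Finset.sum_le_sum fun χ hχ => ?_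
              have hχA : χ ∈ A := hAf.mem_toFinset.1 hχ
              rw [if_pos hχA, Finset.sum_singleton]
              exact pow_le_pow_left₀ hV.le (hτ χ hχA).2.le 2
          _ ≤ _ := by
              refine Finset.sum_le_sum_of_subset_of_nonneg ?_
                (fun χ _ _ => Finset.sum_nonneg fun t _ => by positivity)
              intro χ hχ
              exact (hSm χ).2 (hAf.mem_toFinset.1 hχ).1
      rw [le_div_iff₀ hV2]
      exact (h2.trans h1).trans hMC'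
    · -- the measure
      rw [finsum_mem_eq_finite_toFinset_sum _ hfin]
      have hch : ∀ χ : HG K f, ENNReal.ofReal (V ^ 2) *
          volume {t : ℝ | |t| ≤ T ∧ V < ‖L χ (1 / 2 + t * I)‖} ≤
          ∫⁻ t in Icc (-T) T, ENNReal.ofReal (‖L χ (1 / 2 + t * I)‖ ^ 2) := by
        intro χ
        refine le_trans ?_ (mul_meas_ge_le_lintegral (hmeas χ) (ENNReal.ofReal (V ^ 2)))
        refine mul_le_mul_right ?_ _
        rw [Measure.restrict_apply (measurableSet_le measurable_const (hmeas χ))]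
        refine measure_mono fun t ht => ⟨?_, abs_le.1 ht.1⟩
        exact ENNReal.ofReal_le_ofReal (pow_le_pow_left₀ hV.le ht.2.le 2)
      have hfi : ∀ χ ∈ S, volume {t : ℝ | |t| ≤ T ∧ V < ‖L χ (1 / 2 + t * I)‖} ≠ ⊤ := by
        intro χ _
        refine ne_top_of_le_ne_top (b := volume (Icc (-T) T)) (by simp) (measure_mono fun t ht => ?_)
        exact abs_le.1 ht.1
      rw [← ENNReal.toReal_sum hfi, le_div_iff₀ hV2]
      refine le_trans ?_ hMC'
      have h3 : ENNReal.ofReal (V ^ 2) * ∑ χ ∈ S,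
          volume {t : ℝ | |t| ≤ T ∧ V < ‖L χ (1 / 2 + t * I)‖} ≤ ENNReal.ofReal M := by
        rw [Finset.mul_sum]
        exact (Finset.sum_le_sum fun χ _ => hch χ).trans hint
      have h4 := ENNReal.toReal_le_of_le_ofReal hM0 h3
      rw [ENNReal.toReal_mul, ENNReal.toReal_ofReal hV2.le] at h4
      linarith

end Pool.Agent.H23.GLB
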