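import Mathlib

/-!
# Separated points and windows; a dyadic series
-/

set_option autoImplicit false

open MeasureTheory Set Filter
open scoped ENNReal

namespace Pool.Agent.H23.GLB

/-- the Gaussian over the integers -/
lemma gz_sum : Summable fun l : ℤ => Real.exp (-(l : ℝ) ^ 2 / 4) := by
  have hn : Summable fun l : ℕ => Real.exp (-(l : ℝ) ^ 2 / 4) := by
    have hg : Summable fun l : ℕ => (Real.exp (-(1 / 4))) ^ l :=
      summable_geometric_of_lt_one (Real.exp_pos _).le (by rw [← Real.exp_zero]; exact Real.exp_lt_exp.2 (by norm_num))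
    refine Summable.of_nonneg_of_le (fun l => (Real.exp_pos _).le) (fun l => ?_) hg
    rw [← Real.exp_nat_mul]
    apply Real.exp_le_exp.2
    have : (l : ℝ) ≤ (l : ℝ) ^ 2 := by
      rcases Nat.eq_zero_or_pos l with h | h
      · simp [h]
      · have : (1 : ℝ) ≤ l := by exact_mod_cast h
        nlinarith
    linarith
  refine Summable.of_nat_of_neg (by simpa using hn) ?_
  simpa using hn

/-- the constant -/
noncomputable def GZ : ℝ :=
  ∑' l : ℤ, (Real.exp (-(l : ℝ) ^ 2 / 4) + Real.exp (-((l : ℝ) + 1) ^ 2 / 4))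

lemma gz_sum1 : Summable fun l : ℤ => Real.exp (-((l : ℝ) + 1) ^ 2 / 4) := by
  have := (Equiv.addRight (1 : ℤ)).summable_iff.2 gz_sum
  refine this.congr fun l => ?_
  simp

lemma gz_nonneg : 0 ≤ GZ := tsum_nonneg fun l => by positivity

/-- separated points -/
def Sep (P : Finset ℝ) : Prop := ∀ t ∈ P, ∀ t' ∈ P, t ≠ t' → 1 ≤ |t - t'|

lemma sep_sum {P : Finset ℝ} (hP : Sep P) (w : ℝ) :
    ∑ t ∈ P, Real.exp (-(w - t) ^ 2 / 4) ≤ GZ := by
  classical
  have hinj : Set.InjOn (fun t : ℝ => ⌊t - w⌋) (P : Set ℝ) := by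
    intro t ht t' ht' h
    by_contra hne
    have h1 := hP t ht t' ht' hne
    have h2 := Int.abs_sub_lt_one_of_floor_eq_floor h
    have e : t - w - (t' - w) = t - t' := by ring
    rw [e] at h2
    linarith
  have hle : ∀ t : ℝ, Real.exp (-(w - t) ^ 2 / 4) ≤
      Real.exp (-((⌊t - w⌋ : ℤ) : ℝ) ^ 2 / 4) + Real.exp (-(((⌊t - w⌋ : ℤ) : ℝ) + 1) ^ 2 / 4) := by
    intro t
    have h1 := Int.floor_le (t - w)
    have h2 := Int.lt_floor_add_one (t - w)
    rcases le_or_gt 0 ⌊t - w⌋ with h | h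
    · have h0 : (0 : ℝ) ≤ (⌊t - w⌋ : ℤ) := by exact_mod_cast h
      have : Real.exp (-(w - t) ^ 2 / 4) ≤ Real.exp (-((⌊t - w⌋ : ℤ) : ℝ) ^ 2 / 4) := by
        apply Real.exp_le_exp.2
        nlinarith
      linarith [Real.exp_pos (-(((⌊t - w⌋ : ℤ) : ℝ) + 1) ^ 2 / 4)]
    · have h0 : ((⌊t - w⌋ : ℤ) : ℝ) + 1 ≤ 0 := by exact_mod_cast h
      have : Real.exp (-(w - t) ^ 2 / 4) ≤ Real.exp (-(((⌊t - w⌋ : ℤ) : ℝ) + 1) ^ 2 / 4) := by
        apply Real.exp_le_exp.2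
        nlinarith
      linarith [Real.exp_pos (-((⌊t - w⌋ : ℤ) : ℝ) ^ 2 / 4)]
  calc ∑ t ∈ P, Real.exp (-(w - t) ^ 2 / 4)
      ≤ ∑ t ∈ P, (fun l : ℤ => Real.exp (-(l : ℝ) ^ 2 / 4) + Real.exp (-((l : ℝ) + 1) ^ 2 / 4))
        ⌊t - w⌋ := Finset.sum_le_sum fun t _ => hle t
    _ = ∑ l ∈ P.image (fun t : ℝ => ⌊t - w⌋), (Real.exp (-(l : ℝ) ^ 2 / 4) +
          Real.exp (-((l : ℝ) + 1) ^ 2 / 4)) := by
        rw [Finset.sum_image hinj]
    _ ≤ GZ := Summable.sum_le_tsum _ (fun l _ => by positivity) (gz_sum.add gz_sum1)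

/-- the windows -/
noncomputable def wi (T : ℝ) (k : ℕ) : ℝ := T + k + 1

lemma ww_pt {P : Finset ℝ} (hP : Sep P) {T : ℝ} (hT : 0 ≤ T) (hPT : ∀ t ∈ P, |t| ≤ T) (w : ℝ) :
    ∑ t ∈ P, ENNReal.ofReal (Real.exp (-(w - t) ^ 2 / 2)) ≤
      ENNReal.ofReal GZ * ∑' k : ℕ, ENNReal.ofReal (Real.exp (-(k : ℝ) ^ 2 / 4)) *
        (Icc (-wi T k) (wi T k)).indicator 1 w := by
  classical
  set k₀ : ℕ := ⌊max (|w| - T) 0⌋₊ with hk₀
  have h1 : (k₀ : ℝ) ≤ max (|w| - T) 0 := Nat.floor_le (le_max_right _ _)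
  have h2 : max (|w| - T) 0 < k₀ + 1 := Nat.lt_floor_add_one _
  have hw : w ∈ Icc (-wi T k₀) (wi T k₀) := by
    rw [mem_Icc, ← abs_le]
    unfold wi
    have := le_max_left (|w| - T) 0
    linarith
  have hk0 : (0 : ℝ) ≤ k₀ := Nat.cast_nonneg _
  have hpt : ∀ t ∈ P, Real.exp (-(w - t) ^ 2 / 2) ≤
      Real.exp (-(k₀ : ℝ) ^ 2 / 4) * Real.exp (-(w - t) ^ 2 / 4) := by
    intro t ht
    rw [← Real.exp_add]
    apply Real.exp_le_exp.2
    have h3 : max (|w| - T) 0 ≤ |w - t| := by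
      apply max_le _ (abs_nonneg _)
      have := abs_sub_abs_le_abs_sub w t
      have := hPT t ht
      linarith
    have h4 : (k₀ : ℝ) ^ 2 ≤ (w - t) ^ 2 := by
      rw [← sq_abs (w - t)]
      exact pow_le_pow_left₀ hk0 (h1.trans h3) 2
    linarith
  have hsum : ∑ t ∈ P, Real.exp (-(w - t) ^ 2 / 2) ≤ GZ * Real.exp (-(k₀ : ℝ) ^ 2 / 4) := by
    refine (Finset.sum_le_sum hpt).trans ?_
    rw [← Finset.mul_sum, mul_comm]
    exact mul_le_mul_of_nonneg_right (sep_sum hP w) (Real.exp_pos _).le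
  rw [← ENNReal.ofReal_sum_of_nonneg (fun t _ => (Real.exp_pos _).le)]
  refine (ENNReal.ofReal_le_ofReal hsum).trans ?_
  rw [ENNReal.ofReal_mul gz_nonneg]
  gcongr
  refine le_trans ?_ (ENNReal.le_tsum k₀)
  rw [Set.indicator_of_mem hw]
  simp

/-- separated points and windows -/
lemma win {P : Finset ℝ} (hP : Sep P) {T : ℝ} (hT : 0 ≤ T) (hPT : ∀ t ∈ P, |t| ≤ T)
    (F : ℝ → ℝ≥0∞) (hF : Measurable F) :
    ∑ t ∈ P, ∫⁻ v : ℝ, F (t + v) * ENNReal.ofReal (Real.exp (-v ^ 2 / 2)) ≤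
      ENNReal.ofReal GZ * ∑' k : ℕ, ENNReal.ofReal (Real.exp (-(k : ℝ) ^ 2 / 4)) *
        ∫⁻ w in Icc (-wi T k) (wi T k), F w := by
  have hg : Measurable fun v : ℝ => ENNReal.ofReal (Real.exp (-v ^ 2 / 2)) := by fun_prop
  have e1 : ∀ t : ℝ, ∫⁻ v : ℝ, F (t + v) * ENNReal.ofReal (Real.exp (-v ^ 2 / 2)) =
      ∫⁻ w : ℝ, F w * ENNReal.ofReal (Real.exp (-(w - t) ^ 2 / 2)) := by
    intro t
    rw [← lintegral_add_left_eq_self
      (fun w : ℝ => F w * ENNReal.ofReal (Real.exp (-(w - t) ^ 2 / 2))) t]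
    refine lintegral_congr fun v => ?_
    simp
  simp_rw [e1]
  rw [← lintegral_finsetSum _ (fun t _ => by fun_prop)]
  calc ∫⁻ w : ℝ, ∑ t ∈ P, F w * ENNReal.ofReal (Real.exp (-(w - t) ^ 2 / 2))
      ≤ ∫⁻ w : ℝ, ENNReal.ofReal GZ * ∑' k : ℕ, ENNReal.ofReal (Real.exp (-(k : ℝ) ^ 2 / 4)) *
        (Icc (-wi T k) (wi T k)).indicator F w := by
        refine lintegral_mono fun w => ?_
        dsimp only
        rw [← Finset.mul_sum]
        refine (mul_le_mul_right (ww_pt hP hT hPT w) (F w)).trans ?_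
        rw [mul_left_comm]
        gcongr
        rw [← ENNReal.tsum_mul_left]
        refine ENNReal.tsum_le_tsum fun k => ?_
        rw [mul_left_comm]
        gcongr
        by_cases h : w ∈ Icc (-wi T k) (wi T k)
        · rw [Set.indicator_of_mem h, Set.indicator_of_mem h]; simp
        · rw [Set.indicator_of_notMem h, Set.indicator_of_notMem h]; simp
    _ = ENNReal.ofReal GZ * ∑' k : ℕ, ENNReal.ofReal (Real.exp (-(k : ℝ) ^ 2 / 4)) *
        ∫⁻ w in Icc (-wi T k) (wi T k), F w := by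
        rw [lintegral_const_mul _ (by
          refine Measurable.tsum fun k => ?_
          exact (hF.indicator measurableSet_Icc).const_mul _)]
        rw [lintegral_tsum (fun k => ((hF.indicator measurableSet_Icc).const_mul _).aemeasurable)]
        congr 1
        refine tsum_congr fun k => ?_
        rw [lintegral_const_mul _ (hF.indicator measurableSet_Icc),
          lintegral_indicator measurableSet_Icc]

/-- a series over the windows -/
lemma gk_sum (p : ℕ) : Summable fun k : ℕ => Real.exp (-(k : ℝ) ^ 2 / 4) * ((k : ℝ) + 2) ^ p := by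
  have h1 : Summable fun k : ℕ => ((k : ℝ) + 2) ^ p * Real.exp (-(1 / 4) * (k : ℝ)) := by
    have h := Real.summable_pow_mul_exp_neg_nat_mul p (r := 1 / 4) (by norm_num)
    have h2 := (summable_nat_add_iff 2).2 h
    have h3 := h2.mul_left (Real.exp (1 / 2))
    refine h3.congr fun k => ?_
    push_cast
    rw [mul_left_comm, ← Real.exp_add]
    congr 2
    ring
  refine Summable.of_nonneg_of_le (fun k => by positivity) (fun k => ?_) h1
  rw [mul_comm]
  gcongr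
  have : (k : ℝ) ≤ (k : ℝ) ^ 2 := by
    rcases Nat.eq_zero_or_pos k with h | h
    · simp [h]
    · have : (1 : ℝ) ≤ k := by exact_mod_cast h
      nlinarith
  linarith

/-- the constant -/
noncomputable def GK (p : ℕ) : ℝ :=
  ∑' k : ℕ, Real.exp (-(k : ℝ) ^ 2 / 4) * ((k : ℝ) + 2) ^ p

lemma gk_nonneg (p : ℕ) : 0 ≤ GK p := tsum_nonneg fun k => by positivity

lemma gk_tsum (p : ℕ) : ∑' k : ℕ, ENNReal.ofReal (Real.exp (-(k : ℝ) ^ 2 / 4)) *
    ENNReal.ofReal (((k : ℝ) + 2) ^ p) = ENNReal.ofReal (GK p) := by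
  unfold GK
  rw [ENNReal.ofReal_tsum_of_nonneg (fun k => by positivity) (gk_sum p)]
  refine tsum_congr fun k => ?_
  rw [ENNReal.ofReal_mul (by positivity)]

end Pool.Agent.H23.GLB
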